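import Pool.Agent.H94.PC.PrCount
import Pool.Agent.H3.FS.FRS

set_option autoImplicit false

/-!
# [H94 FS LPF] Almost all polynomials have one prime factor of largest degree, and it is large

Let `z = ⌊√n⌋`.  If `D ∈ Sq F n` has no prime factor as in the statement then either all its prime factors have degree `< z`, or (take a prime factor of largest degree `m ≥ z`) two different prime factors have the same degree `m ≥ z`.
* Second case: for `P ≠ Q` of degree `m` the multiples of `P Q` in `Mo F n` are `q ^ (n - 2 m)` (none if `2 m > n`); at most `(q ^ m / m) ^ 2` pairs (`card_Pr_le_div`); the sum over `m ≥ z` is at most `q ^ n ∑_{m ≥ z} 1 / m ^ 2 ≤ 2 q ^ n / z` (telescoping, `z ≥ 1`).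
* First case: `D` squarefree of degree `n` with all prime degrees `< z` has more than `n / z ≥ z` prime factors, so at least `2 ^ z` monic divisors; `∑_{D ∈ Mo F n} #{monic divisors} ≤ (n + 1) q ^ n` (pairs of monic polynomials with product of degree `n`), so at most `(n + 1) q ^ n / 2 ^ z` such `D`, and `(n + 1) / 2 ^ ⌊√n⌋ → 0`.
Both bounds are `o(q ^ n)`.
-/

namespace Pool.Agent.H94.FS

open Polynomial
open Pool.Agent.H94.PC

private theorem bad_small (F : Type) [Field F] [Finite F] (n : ℕ) (hn : 1 ≤ n)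
    (S : Finset F[X]) (hS : ∀ D ∈ S, D ∈ Sq F n ∧ ∀ P ∈ pf D, P.natDegree < Nat.sqrt n) :
    (S.card : ℝ) * 2 ^ Nat.sqrt n ≤ (n + 1) * (Nat.card F : ℝ) ^ n := by
  refine le_trans ?_ (H3.FS.frs F n)
  have h1 : ∑ D ∈ S, (2 : ℝ) ^ (pf D).card ≤ ∑ D ∈ Sq F n, (2 : ℝ) ^ (pf D).card :=
    Finset.sum_le_sum_of_subset_of_nonneg (fun D hD => (hS D hD).1) fun _ _ _ => by positivity
  refine le_trans ?_ h1
  rw [← nsmul_eq_mul]
  refine Finset.card_nsmul_le_sum _ _ _ fun D hD => ?_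
  obtain ⟨hD1, hP⟩ := hS D hD
  rw [mem_Sq] at hD1
  obtain ⟨hm, hd, hs⟩ := hD1
  refine pow_le_pow_right₀ (by norm_num) ?_
  have h2 := natDegree_prod_pf hm hs
  have h3 : ∑ P ∈ pf D, P.natDegree ≤ (pf D).card * Nat.sqrt n := by
    rw [← smul_eq_mul]
    exact Finset.sum_le_card_nsmul _ _ _ fun P hP' => (hP P hP').le
  rw [h2, hd] at h3
  have h4 : Nat.sqrt n * Nat.sqrt n ≤ n := Nat.sqrt_le n
  have h5 : 0 < Nat.sqrt n := Nat.sqrt_pos.2 hn
  exact Nat.le_of_mul_le_mul_right (h4.trans h3) h5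

open Classical in
private theorem bad_pair (F : Type) [Field F] [Finite F] (n z : ℕ) (hz : 1 ≤ z)
    (S : Finset F[X]) (hS : ∀ D ∈ S, D ∈ Sq F n ∧ ∃ P ∈ pf D, ∃ Q ∈ pf D, P ≠ Q ∧
      P.natDegree = Q.natDegree ∧ z ≤ P.natDegree) :
    (S.card : ℝ) ≤ (Nat.card F : ℝ) ^ n * (2 / z) := by
  have hq : (0 : ℝ) < (Nat.card F : ℝ) := by exact_mod_cast Nat.card_pos
  set U : ℕ → Finset F[X] := fun m => if 2 * m ≤ n then
    ((Pr F m ×ˢ Pr F m) ×ˢ Mo F (n - 2 * m)).image (fun x => x.1.1 * x.1.2 * x.2) else ∅ with hU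
  have h1 : S ⊆ (Finset.Ioo (z - 1) (n + 1)).biUnion U := by
    intro D hD
    obtain ⟨hD1, P, hP, Q, hQ, hne, hdeg, hzP⟩ := hS D hD
    rw [mem_Sq] at hD1
    obtain ⟨hm, hd, hs⟩ := hD1
    obtain ⟨hP1, hP2, hP3⟩ := mem_pf' hP
    obtain ⟨hQ1, hQ2, hQ3⟩ := mem_pf' hQ
    obtain ⟨C, hC⟩ := (isCoprime_irr hP1 hP2 hQ1 hQ2 hne).mul_dvd hP3 hQ3
    have hPQ : (P * Q).Monic := hP1.mul hQ1
    have hCm : C.Monic := by
      rw [hC] at hm
      exact hPQ.of_mul_monic_left hm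
    have hdC : P.natDegree + Q.natDegree + C.natDegree = n := by
      rw [← hd, hC, hPQ.natDegree_mul hCm, hP1.natDegree_mul hQ1]
    rw [Finset.mem_biUnion]
    refine ⟨P.natDegree, ?_, ?_⟩
    · rw [Finset.mem_Ioo]
      omega
    · rw [hU]
      simp only
      rw [if_pos (by omega), Finset.mem_image]
      refine ⟨((P, Q), C), ?_, hC.symm⟩
      rw [Finset.mem_product, Finset.mem_product, mem_Pr, mem_Pr, mem_Mo]
      exact ⟨⟨⟨hP1, rfl, hP2⟩, hQ1, hdeg.symm, hQ2⟩, hCm, by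
        show C.natDegree = n - 2 * P.natDegree
        omega⟩
  have h2 : ∀ m ∈ Finset.Ioo (z - 1) (n + 1), ((U m).card : ℝ) ≤
      (Nat.card F : ℝ) ^ n * ((m : ℝ) ^ 2)⁻¹ := by
    intro m hm
    rw [Finset.mem_Ioo] at hm
    have hm1 : 1 ≤ m := by omega
    have hm0 : (0 : ℝ) < m := by exact_mod_cast hm1
    rw [hU]
    simp only
    split_ifs with h3
    · refine (Nat.cast_le.2 Finset.card_image_le).trans ?_
      rw [Finset.card_product, Finset.card_product, card_Mo]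
      push_cast
      have h4 := card_Pr_le_div (F := F) m hm1
      have h5 : (0 : ℝ) ≤ ((Pr F m).card : ℝ) := Nat.cast_nonneg _
      have h6 : ((Pr F m).card : ℝ) * (Pr F m).card ≤
          ((Nat.card F : ℝ) ^ m / m) * ((Nat.card F : ℝ) ^ m / m) :=
        mul_le_mul h4 h4 h5 (by positivity)
      refine (mul_le_mul_of_nonneg_right h6 (by positivity)).trans (le_of_eq ?_)
      have h7 : (Nat.card F : ℝ) ^ n =
          (Nat.card F : ℝ) ^ m * (Nat.card F : ℝ) ^ m * (Nat.card F : ℝ) ^ (n - 2 * m) := by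
        rw [← pow_add, ← pow_add]
        congr 1
        omega
      rw [h7]
      field_simp
    · rw [Finset.card_empty, Nat.cast_zero]
      positivity
  have h3 : (((Finset.Ioo (z - 1) (n + 1)).biUnion U).card : ℝ) ≤
      ∑ m ∈ Finset.Ioo (z - 1) (n + 1), ((U m).card : ℝ) := by
    exact_mod_cast Finset.card_biUnion_le
  refine (Nat.cast_le.2 (Finset.card_le_card h1)).trans (h3.trans ((Finset.sum_le_sum h2).trans ?_))
  rw [← Finset.mul_sum]
  refine mul_le_mul_of_nonneg_left ?_ (by positivity)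
  have h4 := sum_Ioo_inv_sq_le (α := ℝ) (z - 1) (n + 1)
  refine h4.trans (le_of_eq ?_)
  have h5 : ((z - 1 : ℕ) : ℝ) + 1 = z := by
    rw [Nat.cast_sub hz]
    push_cast
    ring
  rw [h5]

private theorem lim_aux (ε : ℝ) (hε : 0 < ε) :
    ∃ z₀ : ℕ, 1 ≤ z₀ ∧ ∀ z : ℕ, z₀ ≤ z → ((z : ℝ) + 1) ^ 2 / 2 ^ z + 2 / z ≤ ε := by
  have h1 : Filter.Tendsto (fun z : ℕ => (z : ℝ) ^ 2 / 2 ^ z) Filter.atTop (nhds 0) :=
    tendsto_pow_const_div_const_pow_of_one_lt 2 (by norm_num)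
  have h2 : Filter.Tendsto (fun z : ℕ => ((z + 1 : ℕ) : ℝ) ^ 2 / 2 ^ (z + 1)) Filter.atTop
      (nhds 0) := h1.comp (Filter.tendsto_add_atTop_nat 1)
  have h3 : Filter.Tendsto (fun z : ℕ => 2 * (((z + 1 : ℕ) : ℝ) ^ 2 / 2 ^ (z + 1)) + 2 / (z : ℝ))
      Filter.atTop (nhds (2 * 0 + 0)) :=
    (h2.const_mul 2).add (tendsto_const_div_atTop_nhds_zero_nat 2)
  rw [mul_zero, add_zero] at h3
  obtain ⟨z₀, hz₀⟩ := Filter.eventually_atTop.1 ((tendsto_order.1 h3).2 ε hε)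
  refine ⟨max z₀ 1, le_max_right _ _, fun z hz => ?_⟩
  have h4 := (hz₀ z ((le_max_left _ _).trans hz)).le
  refine le_trans (le_of_eq ?_) h4
  push_cast
  rw [pow_succ (2 : ℝ) z]
  field_simp

open Classical in
private theorem lpf_key (F : Type) [Field F] [Finite F] (ε : ℝ) (hε : 0 < ε) :
    ∃ n₀ : ℕ, ∀ n : ℕ, n₀ ≤ n → ∀ T : Finset F[X],
      (∀ D ∈ T, D ∈ Sq F n ∧ ¬ ∃ P ∈ pf D, Nat.sqrt n ≤ P.natDegree ∧
        ∀ Q ∈ pf D, Q ≠ P → Q.natDegree < P.natDegree) →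
      (T.card : ℝ) ≤ ε * (Nat.card F : ℝ) ^ n := by
  have hq : (0 : ℝ) < (Nat.card F : ℝ) := by exact_mod_cast Nat.card_pos
  obtain ⟨z₀, hz1, hz⟩ := lim_aux ε hε
  refine ⟨z₀ * z₀, fun n hn T hTm => ?_⟩
  have hn1 : 1 ≤ n := le_trans (Nat.mul_pos hz1 hz1) hn
  have hzn : z₀ ≤ Nat.sqrt n := Nat.le_sqrt.2 hn
  have hz1' : 1 ≤ Nat.sqrt n := hz1.trans hzn
  have h1 := Finset.card_filter_add_card_filter_not (s := T)
    (fun D => ∀ P ∈ pf D, P.natDegree < Nat.sqrt n)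
  have h2 := bad_small F n hn1 (T.filter fun D => ∀ P ∈ pf D, P.natDegree < Nat.sqrt n)
    (fun D hD => ⟨(hTm D (Finset.mem_filter.1 hD).1).1, (Finset.mem_filter.1 hD).2⟩)
  have h3 := bad_pair F n (Nat.sqrt n) hz1'
    (T.filter fun D => ¬ ∀ P ∈ pf D, P.natDegree < Nat.sqrt n) (by
      intro D hD
      obtain ⟨hDT, hsm⟩ := Finset.mem_filter.1 hD
      obtain ⟨hS, hno⟩ := hTm D hDT
      refine ⟨hS, ?_⟩
      push Not at hsm hno
      obtain ⟨P₀, hP₀, hP₀'⟩ := hsm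
      obtain ⟨P, hP, hmax⟩ := Finset.exists_max_image (pf D) (fun P => P.natDegree) ⟨P₀, hP₀⟩
      have hPz : Nat.sqrt n ≤ P.natDegree := hP₀'.trans (hmax P₀ hP₀)
      obtain ⟨Q, hQ, hne, hle⟩ := hno P hP hPz
      exact ⟨P, hP, Q, hQ, hne.symm, le_antisymm hle (hmax Q hQ), hPz⟩)
  have h4 := hz (Nat.sqrt n) hzn
  have h5 : (n : ℝ) + 1 ≤ ((Nat.sqrt n : ℝ) + 1) ^ 2 := by
    have h := Nat.lt_succ_sqrt n
    have h' : n + 1 ≤ (Nat.sqrt n + 1) * (Nat.sqrt n + 1) := h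
    have h'' : ((n + 1 : ℕ) : ℝ) ≤ (((Nat.sqrt n + 1) * (Nat.sqrt n + 1) : ℕ) : ℝ) := by
      exact_mod_cast h'
    push_cast at h''
    rw [sq]
    exact h''
  have h6 := h2.trans (mul_le_mul_of_nonneg_right h5 (pow_nonneg hq.le n))
  rw [← le_div_iff₀ (by positivity)] at h6
  rw [← h1, Nat.cast_add]
  refine (add_le_add h6 h3).trans ?_
  have h8 := mul_le_mul_of_nonneg_right h4 (pow_nonneg hq.le n)
  refine le_trans (le_of_eq ?_) h8
  ring

open Classical in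
theorem lpf (F : Type) [Field F] [Finite F] (ε : ℝ) (hε : 0 < ε) :
    ∃ n₀ : ℕ, ∀ n : ℕ, n₀ ≤ n →
      (((Sq F n).filter fun D => ¬ ∃ P ∈ pf D, Nat.sqrt n ≤ P.natDegree ∧
        ∀ Q ∈ pf D, Q ≠ P → Q.natDegree < P.natDegree).card : ℝ) ≤ ε * (Nat.card F : ℝ) ^ n := by
  obtain ⟨n₀, h⟩ := lpf_key F ε hε
  refine ⟨n₀, fun n hn => h n hn _ fun D hD => ?_⟩
  simp only [Finset.mem_filter] at hD
  exact hD

end Pool.Agent.H94.FS
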