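import Pool.Agent.H94.FS.IN1
import Pool.Agent.H94.FS.LPF
import Pool.Agent.H94.PN.SCL
import Pool.Agent.H94.PN.SQF
import Pool.Agent.H3.FS.FRD

set_option autoImplicit false

/-!
# [H94 FS IN2] The exceptional set of the four-Selmer law

`Idp α c A D P`: for Selmer tuples `δ`, `δ'` with even exponents at `P` in all components: if `δ 0 * δ' 1` is a constant times a square then all components of `δ` and `δ'` are squares.
* `in2`: let `Δ = dl A ≠ 0`.  Every `D ∈ Sq F n` is `D₀ * D''` with `D₀` the product of the primes of `pf D ∩ pf Δ` (finitely many possibilities: monic divisors of the product of `pf Δ`; `D₀ ∣ Δ`) and `D'' ∈ Cls Δ (n - deg D₀)` (squarefree, monic, prime to `Δ`; `deg D₀ ≤ deg Δ`).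
  Let `P` be the prime factor of `lpf`, `n` so large that `√n > deg Δ`: `P ∤ Δ`, `P ∣ D''`, and `Lg Δ n D P` holds (`D = D' * P`, `pf (D' * Δ)`: the primes of `D'` are the primes of `D` different from `P` since `D` is squarefree, those of `Δ` have degree `≤ deg Δ < √n`).
  If `Idp α c A D P` fails there are `δ`, `δ'`; by `scl_sln` they are Selmer tuples for `A' = fun k => D₀ ^ α * A k` and `D''`; `ex 2 Q (δ 0) + ex 2 Q (δ' 1) = ex 2 Q (δ 0 * δ' 1) = 0` for all irreducible `Q` (`ex_mul`; constants have exponent `0`, squares have even exponent, `ex_pow_l`).  So `D''` is in the set of `in1` for `A'` (`scl_gen`, `scl_cls`: `dl A' ` and `dl A` give the same `Cls`; `A'` is injective) in degree `n - deg D₀`.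
  So the number of the exceptional `D` is at most the number of `lpf` plus the sum over the finitely many `D₀` of the numbers of `in1`, which is `≤ ε q ^ n` for large `n`.
-/

namespace Pool.Agent.H94.FS

open Polynomial
open Pool.Agent.H94.PL
open Pool.Agent.H94.PM
open Pool.Agent.H94.PN
open Pool.Agent.H94.PC (Mo Sq Pr pf om Mn mem_Mo mem_Sq mem_Pr mem_pf mem_pf')

/-- the independence condition for `D` and its prime factor `P` -/
def Idp {F : Type} [Field F] [DecidableEq (RatFunc F)] (α : ℕ) (c : F) (A : Fin 3 → F[X])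
    (D P : F[X]) : Prop :=
  ∀ δ δ' : Fin 3 → RatFunc F, IsSln 2 α c A D δ → IsSln 2 α c A D δ' →
    (∀ k, PL.ex 2 P (δ k) = 0 ∧ PL.ex 2 P (δ' k) = 0) →
    (∃ a : F, a ≠ 0 ∧ IsSquare (algebraMap F (RatFunc F) a * δ 0 * δ' 1)) →
    ∀ k, IsSquare (δ k) ∧ IsSquare (δ' k)

section
variable {F : Type} [Field F] [Finite F]

private theorem in2_exC {Q : F[X]} (hQ : Irreducible Q) {a : F} (ha : a ≠ 0) :
    PL.ex 2 Q (algebraMap F (RatFunc F) a) = 0 := by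
  have h1 : algebraMap F (RatFunc F) a = algebraMap F[X] (RatFunc F) (C a) := by
    rw [← Polynomial.algebraMap_eq, ← IsScalarTower.algebraMap_apply]
  have h2 : ¬ Q ∣ C a := fun h =>
    hQ.not_isUnit (isUnit_of_dvd_unit h (isUnit_C.2 (isUnit_iff_ne_zero.2 ha)))
  rw [h1, PL.ex_poly hQ (C_ne_zero.2 ha), multiplicity_eq_zero.2 h2, Nat.cast_zero]

private theorem in2_sum [DecidableEq (RatFunc F)] {Q : F[X]} (hQ : Irreducible Q) {a : F}
    (ha : a ≠ 0) {x y : RatFunc F} (hx : x ≠ 0) (hy : y ≠ 0)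
    (h : IsSquare (algebraMap F (RatFunc F) a * x * y)) : PL.ex 2 Q x + PL.ex 2 Q y = 0 := by
  obtain ⟨z, hz⟩ := h
  have ha' : algebraMap F (RatFunc F) a ≠ 0 := (_root_.map_ne_zero _).2 ha
  have hxy : algebraMap F (RatFunc F) a * x * y ≠ 0 := mul_ne_zero (mul_ne_zero ha' hx) hy
  have hz0 : z ≠ 0 := by
    intro h0
    rw [h0, mul_zero] at hz
    exact hxy hz
  have h1 := congrArg (PL.ex 2 Q) hz
  rw [PL.ex_mul hQ (mul_ne_zero ha' hx) hy, PL.ex_mul hQ ha' hx, in2_exC hQ ha, zero_add,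
    PL.ex_mul hQ hz0 hz0] at h1
  rw [h1]
  exact CharTwo.add_self_eq_zero _

private theorem in2_lg {Δ : F[X]} (hΔ : Δ ≠ 0) {n : ℕ} (hn : Δ.natDegree < Nat.sqrt n) {D P : F[X]}
    (hD : D ∈ Sq F n) (hP : P ∈ pf D) (h1 : Nat.sqrt n ≤ P.natDegree)
    (h2 : ∀ Q ∈ pf D, Q ≠ P → Q.natDegree < P.natDegree) : H3.FS.Lg Δ n D P := by
  obtain ⟨hPm, hPi, hPD⟩ := mem_pf' hP
  obtain ⟨hDm, -, hDs⟩ := mem_Sq.1 hD
  obtain ⟨D', hD'⟩ := hPD
  have hD'0 : D' ≠ 0 := by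
    rintro rfl
    rw [mul_zero] at hD'
    exact hDm.ne_zero hD'
  refine ⟨hPm, hPi, h1, D', by rw [hD', mul_comm], fun v hv => ?_⟩
  obtain ⟨hvm, hvi, hvd⟩ := mem_pf' hv
  rcases hvi.prime.dvd_or_dvd hvd with h3 | h3
  · refine h2 v ((mem_pf hDm.ne_zero).2 ⟨hvm, hvi, ?_⟩) ?_
    · rw [hD']
      exact h3.mul_left _
    · rintro rfl
      obtain ⟨w, hw⟩ := h3
      apply hvi.not_isUnit
      apply hDs v
      rw [hD', hw]
      exact ⟨w, by ring⟩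
  · have h4 := natDegree_le_of_dvd h3 hΔ
    omega

end

section
variable {F : Type} [Field F] [Finite F] [DecidableEq (RatFunc F)] {α : ℕ} {c : F}
  {A : Fin 3 → F[X]}

/-- some large prime of `D` violates the independence -/
private def Wbad (α : ℕ) (c : F) (A : Fin 3 → F[X]) (D : F[X]) : Prop :=
  ∃ P ∈ pf D, (dl A).natDegree < P.natDegree ∧ ¬ Idp α c A D P

open Classical in
private theorem in2_T (hq : 2 ∣ Nat.card F - 1) (hα : 2 ∣ α * 3 + 1) (hc : c ≠ 0)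
    (hA : ∀ i k, i ≠ k → A i ≠ A k) (hG : GenA 2 A) (hΔ : dl A ≠ 0) {T : Finset F[X]}
    (hT : T ∈ (pf (dl A)).powerset) (ε : ℝ) (hε : 0 < ε) :
    ∃ n₀ : ℕ, ∀ n : ℕ, n₀ ≤ n →
      (if (∏ P ∈ T, P).natDegree ≤ n then
        ∑ D ∈ Cls (dl A) (n - (∏ P ∈ T, P).natDegree),
          (if Wbad α c A ((∏ P ∈ T, P) * D) then (1 : ℝ) else 0) else 0) ≤
        ε * (Nat.card F : ℝ) ^ n := by
  obtain ⟨hTm, hTd⟩ := sqf_dvd hΔ hT
  obtain ⟨D0, hD0⟩ : ∃ D0 : F[X], D0 = ∏ P ∈ T, P := ⟨_, rfl⟩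
  rw [← hD0] at hTm hTd ⊢
  have h0 : D0 ≠ 0 := hTm.ne_zero
  have hA' : ∀ i k, i ≠ k → D0 ^ α * A i ≠ D0 ^ α * A k := fun i k hik h =>
    hA i k hik (mul_left_cancel₀ (pow_ne_zero _ h0) h)
  have hG' : GenA 2 (fun k => D0 ^ α * A k) := scl_gen hA h0 hG
  obtain ⟨n₀, h⟩ := in1 (A := fun k => D0 ^ α * A k) hq hα hc hA' hG' ε hε
  have hq1 : (1 : ℝ) ≤ Nat.card F := by exact_mod_cast (Nat.card_pos : 0 < Nat.card F)
  refine ⟨n₀ + D0.natDegree, fun n hn => ?_⟩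
  rw [if_pos (by omega), Finset.sum_boole]
  have h1 := h (n - D0.natDegree) (by omega)
  rw [scl_cls hTd] at h1
  have h2 : ε * (Nat.card F : ℝ) ^ (n - D0.natDegree) ≤ ε * (Nat.card F : ℝ) ^ n :=
    mul_le_mul_of_nonneg_left (pow_le_pow_right₀ hq1 (Nat.sub_le _ _)) hε.le
  refine le_trans ?_ (h1.trans h2)
  have hsub : (Cls (dl A) (n - D0.natDegree)).filter (fun D => Wbad α c A (D0 * D)) ⊆
      (Cls (dl A) (n - D0.natDegree)).filter fun D => ∃ δ δ' : Fin 3 → RatFunc F,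
        IsSln 2 α c (fun k => D0 ^ α * A k) D δ ∧ IsSln 2 α c (fun k => D0 ^ α * A k) D δ' ∧
        (∃ P ∈ pf D, ∀ k, PL.ex 2 P (δ k) = 0 ∧ PL.ex 2 P (δ' k) = 0) ∧
        (∀ Q ∈ pf D, PL.ex 2 Q (δ 0) + PL.ex 2 Q (δ' 1) = 0) ∧
        ¬ ∀ k, IsSquare (δ k) ∧ IsSquare (δ' k) := by
    intro D hD
    rw [Finset.mem_filter] at hD ⊢
    obtain ⟨hD1, P, hP, hPdeg, hI⟩ := hD
    refine ⟨hD1, ?_⟩
    obtain ⟨hDm, -, -, -⟩ := mem_Cls.1 hD1
    obtain ⟨hPm, hPi, hPd⟩ := mem_pf' hP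
    unfold Idp at hI
    push Not at hI
    obtain ⟨δ, δ', h3, h4, h5, ⟨a, ha, h6⟩, k, h7⟩ := hI
    refine ⟨δ, δ', (scl_sln hα h0 c D δ).1 h3, (scl_sln hα h0 c D δ').1 h4, ⟨P, ?_, h5⟩, ?_, ?_⟩
    · refine (mem_pf hDm.ne_zero).2 ⟨hPm, hPi, ?_⟩
      rcases hPi.prime.dvd_or_dvd hPd with h8 | h8
      · have h9 := natDegree_le_of_dvd (h8.trans hTd) hΔ
        omega
      · exact h8
    · intro Q hQ
      exact in2_sum (mem_pf' hQ).2.1 ha (h3.ne 0) (h4.ne 1) h6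
    · intro h8
      exact h7 (h8 k).1 (h8 k).2
  exact_mod_cast Finset.card_le_card hsub

end

theorem in2 {F : Type} [Field F] [Finite F] [DecidableEq (RatFunc F)] {α : ℕ} {c : F}
    {A : Fin 3 → F[X]} (hq : 2 ∣ Nat.card F - 1) (hα : 2 ∣ α * 3 + 1) (hc : c ≠ 0)
    (hA : ∀ i k, i ≠ k → A i ≠ A k) (hG : GenA 2 A) :
    Filter.Tendsto (fun n : ℕ => ({D | D ∈ Sq F n ∧
      ¬ ∃ P, H3.FS.Lg (dl A) n D P ∧ Idp α c A D P}.ncard : ℝ) / (Nat.card F : ℝ) ^ n)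
      Filter.atTop (nhds 0) := by
  classical
  have hΔ : dl A ≠ 0 := by
    unfold dl
    rw [Finset.prod_ne_zero_iff]
    intro p hp
    exact sub_ne_zero.2 (hA p.1 p.2 (mem_prs.1 hp).ne)
  have hq0 : (0 : ℝ) < Nat.card F := by exact_mod_cast (Nat.card_pos : 0 < Nat.card F)
  rw [Metric.tendsto_atTop]
  intro ε hε
  obtain ⟨n₁, hn₁⟩ := lpf F (ε / 4) (by positivity)
  obtain ⟨K, hK⟩ : ∃ K : ℝ, K = ((pf (dl A)).powerset.card : ℝ) := ⟨_, rfl⟩
  have hK0 : 0 < K := by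
    rw [hK, Finset.card_powerset]
    positivity
  have hT : ∀ T : Finset F[X], ∃ n₀ : ℕ, T ∈ (pf (dl A)).powerset → ∀ n : ℕ, n₀ ≤ n →
      (if (∏ P ∈ T, P).natDegree ≤ n then
        ∑ D ∈ Cls (dl A) (n - (∏ P ∈ T, P).natDegree),
          (if Wbad α c A ((∏ P ∈ T, P) * D) then (1 : ℝ) else 0) else 0) ≤
        ε / (4 * K) * (Nat.card F : ℝ) ^ n := by
    intro T
    by_cases hT : T ∈ (pf (dl A)).powerset
    · obtain ⟨n₀, hn₀⟩ := in2_T hq hα hc hA hG hΔ hT (ε / (4 * K)) (by positivity)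
      exact ⟨n₀, fun _ => hn₀⟩
    · exact ⟨0, fun hT' => absurd hT' hT⟩
  choose n₀ hn₀ using hT
  refine ⟨max n₁ (max ((pf (dl A)).powerset.sup n₀) (((dl A).natDegree + 1) *
    ((dl A).natDegree + 1))), fun n hn => ?_⟩
  have hna : n₁ ≤ n := (le_max_left _ _).trans hn
  have hnb : (pf (dl A)).powerset.sup n₀ ≤ n :=
    (le_max_left _ _).trans ((le_max_right _ _).trans hn)
  have hnc : (dl A).natDegree < Nat.sqrt n :=
    Nat.le_sqrt.2 ((le_max_right _ _).trans ((le_max_right _ _).trans hn))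
  obtain ⟨E, h2, hE⟩ : ∃ E : Finset F[X], (E.card : ℝ) ≤ ε / 4 * (Nat.card F : ℝ) ^ n ∧
      ∀ D, D ∈ E ↔ D ∈ Sq F n ∧ ¬ ∃ P ∈ pf D,
        Nat.sqrt n ≤ P.natDegree ∧ ∀ Q ∈ pf D, Q ≠ P → Q.natDegree < P.natDegree :=
    ⟨_, hn₁ n hna, fun D => by simp only [Finset.mem_filter]⟩
  obtain ⟨W, hW⟩ : ∃ W : Finset F[X], W = (Sq F n).filter fun D => Wbad α c A D := ⟨_, rfl⟩
  have hsub : {D | D ∈ Sq F n ∧ ¬ ∃ P, H3.FS.Lg (dl A) n D P ∧ Idp α c A D P} ⊆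
      ((E ∪ W : Finset F[X]) : Set F[X]) := by
    rintro D ⟨hD, hnot⟩
    rw [Finset.mem_coe, Finset.mem_union]
    by_cases hP : ∃ P ∈ pf D, Nat.sqrt n ≤ P.natDegree ∧
        ∀ Q ∈ pf D, Q ≠ P → Q.natDegree < P.natDegree
    · right
      obtain ⟨P, hP1, hP2, hP3⟩ := hP
      rw [hW, Finset.mem_filter]
      refine ⟨hD, P, hP1, by omega, fun hI => hnot ⟨P, in2_lg hΔ hnc hD hP1 hP2 hP3, hI⟩⟩
    · left
      rw [hE]
      exact ⟨hD, hP⟩
  have h1 : {D | D ∈ Sq F n ∧ ¬ ∃ P, H3.FS.Lg (dl A) n D P ∧ Idp α c A D P}.ncard ≤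
      E.card + W.card := by
    have h2 := Set.ncard_le_ncard hsub (Finset.finite_toSet _)
    rw [Set.ncard_coe_finset] at h2
    exact h2.trans (Finset.card_union_le _ _)
  have h3 : (W.card : ℝ) ≤ ε / 4 * (Nat.card F : ℝ) ^ n := by
    have h4 : (W.card : ℝ) = ∑ D ∈ Sq F n, (if Wbad α c A D then (1 : ℝ) else 0) := by
      rw [hW, Finset.sum_boole]
    rw [h4, sqf_sum hΔ]
    have h5 : ∀ T ∈ (pf (dl A)).powerset, (if (∏ P ∈ T, P).natDegree ≤ n then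
        ∑ D ∈ Cls (dl A) (n - (∏ P ∈ T, P).natDegree),
          (if Wbad α c A ((∏ P ∈ T, P) * D) then (1 : ℝ) else 0) else 0) ≤
        ε / (4 * K) * (Nat.card F : ℝ) ^ n :=
      fun T hT => hn₀ T hT n ((Finset.le_sup hT).trans hnb)
    refine (Finset.sum_le_sum h5).trans (le_of_eq ?_)
    rw [Finset.sum_const, nsmul_eq_mul, ← hK]
    field_simp
  have h4 : ({D | D ∈ Sq F n ∧ ¬ ∃ P, H3.FS.Lg (dl A) n D P ∧ Idp α c A D P}.ncard : ℝ) ≤
      ε / 2 * (Nat.card F : ℝ) ^ n := by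
    have h5 : ({D | D ∈ Sq F n ∧ ¬ ∃ P, H3.FS.Lg (dl A) n D P ∧ Idp α c A D P}.ncard : ℝ) ≤
        (E.card : ℝ) + (W.card : ℝ) := by exact_mod_cast h1
    linarith
  rw [Real.dist_eq, sub_zero, abs_of_nonneg (by positivity)]
  have hqn : (0 : ℝ) < (Nat.card F : ℝ) ^ n := pow_pos hq0 n
  rw [div_lt_iff₀ hqn]
  refine lt_of_le_of_lt h4 ?_
  exact mul_lt_mul_of_pos_right (by linarith) hqn

end Pool.Agent.H94.FS
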