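import Pool.Agent.H94.FS.MMR

/-!
# [H94 FS IN0] Almost all `D`: no linear relation between the labels

`torz dt σ` is the torsion element with the labels `σ`.
* `torz_mem`: it is in `KM` for `D ∈ Cls Δ n`, `n ≥ 1` (for `dtk dt k`: in each component `TOK.tor`; `EM`: `∑ lm • (σ - σ) + deg • (- bet σ + bet σ) + ∑ lm • (- L σ + L σ) = 0`; `xi` of the constant function: `(deg D) • σ`, `lm v D • σ`: `tot`-lemmas as `totm_sum` in `PM/TOTM.lean`; see also `PM` for the torsion of `KM`).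
* `in0`: for `D ∈ Cls Δ n`, `n ≥ 1` (so `pf D` is not empty) the number `S D = ∑ s, card {z ∈ KM | ∀ P, ∑ j, e j (z.2 P j) = s}` counts the `z` for which this sum does not depend on `P`; the `card X ^ k` elements `torz σ` are such `z` (different for different `σ`).
  So `S D ≥ card X ^ k`, and `S D ≥ card X ^ k + 1` if `D` is in the set of the statement.  `mmr` for all `s` with `ε / ℓ`: `∑ D, S D ≤ card X ^ k * card Cls + ε q ^ n` (`∑ s, card {x | ∑ e j (x j) = s} = card X ^ k`), so the number of the bad `D` is at most `ε q ^ n`.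
-/

set_option autoImplicit false

namespace Pool.Agent.H94.FS

open Polynomial
open Pool.Agent.H94.PL
open Pool.Agent.H94.PM
open Pool.Agent.H94.PN
open Pool.Agent.H94.PC (Mo Sq Pr pf om Mn mem_Mo mem_Sq mem_Pr mem_pf mem_pf')

variable {ℓ : ℕ} [hl : Fact ℓ.Prime] {X : Type} [AddCommGroup X] [Module (ZMod ℓ) X]
  {F : Type} [Field F] [Finite F] {Δ : F[X]}

/-- the torsion element with the labels `σ` -/
def torz (dt : Dat ℓ X (pf Δ)) (D : F[X]) (σ : X) : EE X (pf Δ) × (pf D → X) :=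
  ((-dt.bet σ, fun v => -dt.L v σ), fun _ => σ)

variable [Fintype X] [DecidableEq X] {B : X →ₗ[ZMod ℓ] X →ₗ[ZMod ℓ] ZMod ℓ} (χ : LChar F ℓ)

omit [Fintype X] [DecidableEq X] in
private theorem in0_xi {n : ℕ} {D : F[X]} (hD : D ∈ Cls Δ n) (σ : X) :
    xi χ Δ D (fun _ => σ) = ((ty χ Δ D).1 • σ, fun v => (ty χ Δ D).2 v • σ) := by
  obtain ⟨hD1, hD2, hD3, hD4⟩ := mem_Cls.1 hD
  refine Prod.ext ?_ ?_
  · show ∑ P : pf D, (P.1.natDegree : ZMod ℓ) • σ = (D.natDegree : ZMod ℓ) • σ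
    rw [← Finset.sum_smul]
    congr 1
    rw [← PC.natDegree_prod_pf hD1 hD3, Nat.cast_sum]
    exact Finset.sum_coe_sort (pf D) (fun P => (P.natDegree : ZMod ℓ))
  · funext v
    show ∑ P : pf D, lm χ v.1 P.1 • σ = lm χ v.1 D • σ
    rw [← Finset.sum_smul]
    congr 1
    have h1 : IsCoprime v.1 D := (hD4.of_isCoprime_of_dvd_right (mem_pf' v.2).2.2).symm
    conv_rhs => rw [← PC.prod_pf hD1 hD3]
    rw [lm_prod_right]
    · exact Finset.sum_coe_sort (pf D) (fun P => lm χ v.1 P)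
    · intro P hP
      exact (mem_pf' hP).1
    · intro P hP
      exact h1.of_isCoprime_of_dvd_right (mem_pf' hP).2.2

theorem torz_mem {dt : Dat ℓ X (pf Δ)} {n : ℕ} {D : F[X]} (hD : D ∈ Cls Δ n)
    (hT : TOK B dt (ty χ Δ D)) (k : ℕ) (σ : Fin k → X) :
    torz (dtk dt k) D σ ∈ KM χ (dtk dt k) D := by
  rw [mem_KM]
  constructor
  · have h1 : xi χ Δ D (torz (dtk dt k) D σ).2 =
        ((ty χ Δ D).1 • σ, fun v => (ty χ Δ D).2 v • σ) := in0_xi χ hD σ
    rw [h1, mem_dtk_W]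
    intro i
    exact hT.tor (σ i)
  · intro P
    unfold EM torz
    simp

open Classical in
theorem in0 (hB : BGood B) [Nontrivial X] (hx : ℓ ≠ 2 → ∃ x : X, B x x ≠ 0) (hΔ : Δ ≠ 0)
    {dt : Dat ℓ X (pf Δ)} (hd : DOK B dt (χ.lg (-1)))
    (hG : Algebra.adjoin (ZMod ℓ) (Set.range dt.L) = (⊤ : Subalgebra (ZMod ℓ) (Module.End (ZMod ℓ) X)))
    (hT : ∀ n, 1 ≤ n → ∀ D ∈ Cls Δ n, TOK B dt (ty χ Δ D)) (k : ℕ)
    (e : Fin k → X →ₗ[ZMod ℓ] ZMod ℓ) (he : LinearIndependent (ZMod ℓ) e)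
    (ε : ℝ) (hε : 0 < ε) :
    ∃ n₀ : ℕ, ∀ n : ℕ, n₀ ≤ n →
      (((Cls Δ n).filter fun D => ∃ z ∈ KM χ (dtk dt k) D,
        (∃ s, ∀ P, ∑ j, e j (z.2 P j) = s) ∧ ∀ σ, z ≠ torz (dtk dt k) D σ).card : ℝ) ≤
        ε * (Nat.card F : ℝ) ^ n := by
  have hℓ : (0 : ℝ) < ℓ := by exact_mod_cast hl.out.pos
  choose n₀ hn₀ using fun s : ZMod ℓ => mmr χ hB hx hΔ hd hG hT k e he s (ε / ℓ) (by positivity)
  refine ⟨(Finset.univ.sup n₀) ⊔ 1, fun n hn => ?_⟩
  have hn1 : 1 ≤ n := le_sup_right.trans hn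
  have hns : ∀ s, n₀ s ≤ n := fun s =>
    (Finset.le_sup (Finset.mem_univ s)).trans (le_sup_left.trans hn)
  obtain ⟨q, hq⟩ : ∃ q : ℝ, q = (Nat.card F : ℝ) ^ n := ⟨_, rfl⟩
  obtain ⟨N, hN⟩ : ∃ N : ZMod ℓ → F[X] → ℝ, N = fun s D =>
    (Nat.card {z : KM χ (dtk dt k) D // ∀ P, ∑ j, e j (z.1.2 P j) = s} : ℝ) := ⟨_, rfl⟩
  obtain ⟨c, hc⟩ : ∃ c : ZMod ℓ → ℝ, c = fun s =>
    ((Finset.univ.filter fun x : Fin k → X => ∑ j, e j (x j) = s).card : ℝ) := ⟨_, rfl⟩
  have hm : ∀ s, ∑ D ∈ Cls Δ n, N s D ≤ c s * ((Cls Δ n).card : ℝ) + ε / ℓ * q := by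
    intro s
    have h1 := (abs_le.1 (hn₀ s n (hns s))).2
    rw [hN, hc, hq]
    linarith
  have hcs : ∑ s, c s = (Fintype.card X : ℝ) ^ k := by
    have h1 := Finset.card_eq_sum_card_fiberwise (s := (Finset.univ : Finset (Fin k → X)))
      (t := (Finset.univ : Finset (ZMod ℓ))) (f := fun x => ∑ j, e j (x j))
      (fun x _ => Finset.mem_univ _)
    rw [Finset.card_univ, Fintype.card_fun, Fintype.card_fin] at h1
    rw [hc]
    simp only
    rw [← Nat.cast_sum, ← Nat.cast_pow]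
    exact congrArg Nat.cast h1.symm
  have hlow : ∀ D ∈ Cls Δ n, (Fintype.card X : ℝ) ^ k +
      (if (∃ z ∈ KM χ (dtk dt k) D, (∃ s, ∀ P, ∑ j, e j (z.2 P j) = s) ∧
        ∀ σ, z ≠ torz (dtk dt k) D σ) then 1 else 0) ≤ ∑ s, N s D := by
    intro D hD
    obtain ⟨hD1, hD2, hD3, hD4⟩ := mem_Cls.1 hD
    obtain ⟨P₀, hP₀⟩ : ∃ P, P ∈ pf D := PC.exists_mem_pf hD1 (by
      intro h
      rw [h, natDegree_one] at hD2
      omega)
    have hfin : Finite (KM χ (dtk dt k) D) := inferInstance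
    have : Fintype (KM χ (dtk dt k) D) := Fintype.ofFinite _
    let A : ZMod ℓ → Finset (KM χ (dtk dt k) D) := fun s =>
      Finset.univ.filter fun z => ∀ P, ∑ j, e j (z.1.2 P j) = s
    have hA : ∀ s, N s D = ((A s).card : ℝ) := by
      intro s
      rw [hN]
      simp only
      rw [Nat.card_eq_fintype_card, Fintype.card_subtype]
    let U : Finset (KM χ (dtk dt k) D) := Finset.univ.biUnion A
    have hU : ∑ s, N s D = (U.card : ℝ) := by
      rw [Finset.sum_congr rfl fun s _ => hA s, ← Nat.cast_sum]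
      congr 1
      refine (Finset.card_biUnion fun s _ s' _ hs => ?_).symm
      rw [Function.onFun, Finset.disjoint_left]
      intro z hz hz'
      exact hs (((Finset.mem_filter.1 hz).2 ⟨P₀, hP₀⟩).symm.trans
        ((Finset.mem_filter.1 hz').2 ⟨P₀, hP₀⟩))
    rw [hU]
    let g : (Fin k → X) → KM χ (dtk dt k) D := fun σ =>
      ⟨torz (dtk dt k) D σ, torz_mem χ hD (hT n hn1 D hD) k σ⟩
    have hg : Function.Injective g := by
      intro σ σ' h
      have h1 := congrArg Subtype.val h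
      have h2 := congrArg (fun z : EE (Fin k → X) (pf Δ) × (pf D → (Fin k → X)) =>
        z.2 ⟨P₀, hP₀⟩) h1
      exact h2
    let T : Finset (KM χ (dtk dt k) D) := Finset.univ.image g
    have hTc : (T.card : ℝ) = (Fintype.card X : ℝ) ^ k := by
      rw [Finset.card_image_of_injective _ hg, Finset.card_univ, Fintype.card_fun,
        Fintype.card_fin, Nat.cast_pow]
    have hTU : T ⊆ U := by
      intro z hz
      obtain ⟨σ, -, rfl⟩ := Finset.mem_image.1 hz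
      refine Finset.mem_biUnion.2 ⟨∑ j, e j (σ j), Finset.mem_univ _, ?_⟩
      exact Finset.mem_filter.2 ⟨Finset.mem_univ _, fun P => rfl⟩
    rw [← hTc]
    split_ifs with hbad
    · obtain ⟨z, hz, ⟨s, hs⟩, hσ⟩ := hbad
      have h1 : (⟨z, hz⟩ : KM χ (dtk dt k) D) ∉ T := by
        intro h
        obtain ⟨σ, -, h2⟩ := Finset.mem_image.1 h
        exact hσ σ (congrArg Subtype.val h2).symm
      have h2 : insert (⟨z, hz⟩ : KM χ (dtk dt k) D) T ⊆ U := by
        refine Finset.insert_subset ?_ hTU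
        exact Finset.mem_biUnion.2 ⟨s, Finset.mem_univ _,
          Finset.mem_filter.2 ⟨Finset.mem_univ _, hs⟩⟩
      have h3 := Finset.card_le_card h2
      rw [Finset.card_insert_of_notMem h1] at h3
      exact_mod_cast h3
    · rw [add_zero]
      exact_mod_cast Finset.card_le_card hTU
  have h1 : ∑ D ∈ Cls Δ n, ((Fintype.card X : ℝ) ^ k +
      (if (∃ z ∈ KM χ (dtk dt k) D, (∃ s, ∀ P, ∑ j, e j (z.2 P j) = s) ∧
        ∀ σ, z ≠ torz (dtk dt k) D σ) then 1 else 0)) ≤ ∑ D ∈ Cls Δ n, ∑ s, N s D :=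
    Finset.sum_le_sum hlow
  rw [Finset.sum_add_distrib, Finset.sum_const, nsmul_eq_mul, Finset.sum_boole,
    Finset.sum_comm] at h1
  have h2 : ∑ s, ∑ D ∈ Cls Δ n, N s D ≤ ∑ s : ZMod ℓ, (c s * ((Cls Δ n).card : ℝ) + ε / ℓ * q) :=
    Finset.sum_le_sum fun s _ => hm s
  rw [Finset.sum_add_distrib, ← Finset.sum_mul, hcs, Finset.sum_const, Finset.card_univ,
    ZMod.card, nsmul_eq_mul] at h2
  have h3 : (ℓ : ℝ) * (ε / ℓ * q) = ε * q := by
    field_simp
  rw [h3] at h2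
  rw [← hq]
  linarith

end Pool.Agent.H94.FS
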