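import Pool.Agent.H94.FS.IN0
import Pool.Agent.H94.PN.MOM2

set_option autoImplicit false

/-!
# [H94 FS IN1] Almost all `D`: the components of the Selmer classes are independent

`m = 3`, `X = XX 3 2`.  `χ`, `Wl`, `Wi`, `dt = DC χ c A Wl Wi` and the hypotheses `BB_good`, `dok_DC`, `genA_DC`, `tk2`, `dl A ≠ 0` as in `mom2` (`PN/MOM2.lean`); `k = 2`, `e 0 = (x ↦ x.1 0)`, `e 1 = (x ↦ x.1 1)`: linearly independent functionals on `XX 3 2 = {x ∈ (ℤ/2)^3 : ∑ x = 0}` (test on `(1, 0, 1)` and `(0, 1, 1)`).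
For `δ`, `δ'` as in the statement `z = (zM χ A D δ, zM χ A D δ')` (components `0` and `1`) is in `KM χ (dtk dt 2) D` (`zM_mem` for both; membership in the power is componentwise, see `mem_km_cpt` in `PN/PWR.lean`: copy the private lemma or use the definitions).
`∑ j, e j (z.2 Q j) = ex 2 Q (δ 0) + ex 2 Q (δ' 1) = 0` for all `Q` (`toX_apply`, `sln_ex`).  If `z = torz σ` then at the prime `P` of the statement the labels are `0`, so `σ = 0` and `z = 0`, `zM δ = 0 = zM 1`, and by `zM_inj` (the tuple `1` satisfies `IsSln`; or by the definition of `kap` and `ex`: all exponents even, constant a square) all `δ k` are squares, also `δ' k`.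
So every `D` of the statement is in the set of `in0`.
-/

namespace Pool.Agent.H94.FS

open Polynomial
open Pool.Agent.H94.PL
open Pool.Agent.H94.PM
open Pool.Agent.H94.PN
open Pool.Agent.H94.PC (Mo Sq Pr pf om Mn mem_Mo mem_Sq mem_Pr mem_pf mem_pf')

section
variable {ℓ : ℕ} [hl : Fact ℓ.Prime] {X : Type} [AddCommGroup X] [Module (ZMod ℓ) X]
variable {F : Type} [Field F] [Finite F] (χ : LChar F ℓ) {Δ : F[X]} (dt : Dat ℓ X (pf Δ))

private theorem in1_em (k : ℕ) (D : F[X]) (z : EE (Fin k → X) (pf Δ) × (pf D → Fin k → X))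
    (P : pf D) (i : Fin k) :
    EM χ (dtk dt k) D z P i = EM χ dt D (cpt i z.1, fun Q => z.2 Q i) P := by
  simp only [EM, dtk, cpt, Pi.add_apply, Finset.sum_apply, Pi.smul_apply, Pi.sub_apply,
    LinearMap.pi_apply, LinearMap.comp_apply, LinearMap.proj_apply]

private theorem in1_xi (k : ℕ) (D : F[X]) (x : pf D → Fin k → X) (i : Fin k) :
    cpt i (xi χ Δ D x) = xi χ Δ D (fun Q => x Q i) := by
  refine Prod.ext ?_ ?_
  · simp only [xi, cpt, Finset.sum_apply, Pi.smul_apply]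
  · funext v
    simp only [xi, cpt, Finset.sum_apply, Pi.smul_apply]

private theorem in1_mem (k : ℕ) (D : F[X])
    (z : EE (Fin k → X) (pf Δ) × (pf D → Fin k → X))
    (h : ∀ i, ((cpt i z.1, fun Q => z.2 Q i) : EE X (pf Δ) × (pf D → X)) ∈ KM χ dt D) :
    z ∈ KM χ (dtk dt k) D := by
  rw [mem_KM]
  refine ⟨mem_dtk_W.2 fun i => ?_, fun P => ?_⟩
  · have h' := ((mem_KM χ dt D).1 (h i)).1
    rw [← in1_xi χ k D z.2 i] at h'
    exact h'
  · funext i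
    rw [in1_em]
    exact ((mem_KM χ dt D).1 (h i)).2 P

end

section
variable {F : Type} [Field F] [Finite F] [DecidableEq (RatFunc F)] {α : ℕ} {c : F}
  {A : Fin 3 → F[X]} {D : F[X]}

private theorem in1_toX0 {f : Fin 3 → ZMod 2} (h : ∀ k, f k = 0) : (toX f : XX 3 2) = 0 := by
  apply Subtype.ext
  funext k
  rw [toX_apply (Finset.sum_eq_zero fun k _ => h k), h k]
  rfl

private theorem in1_one (hα : 2 ∣ α * 3 + 1) (hc : c ≠ 0) (hA : ∀ i k, i ≠ k → A i ≠ A k)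
    (hD : D ≠ 0) : IsSln 2 α c A D fun _ => 1 := by
  refine sln_of_tcn Nat.prime_two (by decide) hα hc hA hD ⟨fun _ => 0, ?_, fun k => ⟨1, one_ne_zero, ?_⟩⟩
  · simp
  · unfold tv
    simp

private theorem in1_z1 (χ : LChar F 2) : zM χ A D (fun _ => (1 : RatFunc F)) = 0 := by
  unfold zM
  refine Prod.ext (Prod.ext ?_ ?_) ?_
  · exact in1_toX0 fun k => kap_one χ
  · funext v
    exact in1_toX0 fun k => ex_one (mem_pf' v.2).2.1
  · funext P
    exact in1_toX0 fun k => ex_one (mem_pf' P.2).2.1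

private theorem in1_sq (χ : LChar F 2) (hα : 2 ∣ α * 3 + 1) (hc : c ≠ 0)
    (hA : ∀ i k, i ≠ k → A i ≠ A k) (hD : D.Monic) {δ : Fin 3 → RatFunc F}
    (h : IsSln 2 α c A D δ) (h0 : zM χ A D δ = 0) (k : Fin 3) : IsSquare (δ k) := by
  obtain ⟨y, -, hy⟩ := zM_inj χ (by decide : Nat.Coprime 3 2) hα hc hA hD h
    (in1_one hα hc hA hD.ne_zero) (by rw [h0, in1_z1]) k
  exact ⟨y, by rw [hy, one_mul, sq]⟩

end

/-- the two coordinates -/
private def in1_e (j : Fin 2) : XX 3 2 →ₗ[ZMod 2] ZMod 2 :=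
  (LinearMap.proj (if j = 0 then 0 else 1)) ∘ₗ (XM 3 2).subtype

private theorem in1_e0 (x : XX 3 2) : in1_e 0 x = x.1 0 := rfl

private theorem in1_e1 (x : XX 3 2) : in1_e 1 x = x.1 1 := rfl

private theorem in1_lin : LinearIndependent (ZMod 2) in1_e := by
  rw [Fintype.linearIndependent_iff]
  intro g hg
  have h1 : ∀ x : XX 3 2, g 0 * x.1 0 + g 1 * x.1 1 = 0 := by
    intro x
    have h2 := congrArg (fun f : XX 3 2 →ₗ[ZMod 2] ZMod 2 => f x) hg
    simp only [Fin.sum_univ_two, LinearMap.add_apply, LinearMap.smul_apply, smul_eq_mul,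
      LinearMap.zero_apply] at h2
    rw [in1_e0, in1_e1] at h2
    exact h2
  have h2 := h1 ⟨![1, 0, 1], by
    show ∑ k, (![1, 0, 1] : Fin 3 → ZMod 2) k = 0
    decide⟩
  have h3 := h1 ⟨![0, 1, 1], by
    show ∑ k, (![0, 1, 1] : Fin 3 → ZMod 2) k = 0
    decide⟩
  have h4 : g 0 = 0 := by
    have h5 : g 0 * 1 + g 1 * 0 = 0 := h2
    rw [mul_one, mul_zero, add_zero] at h5
    exact h5
  have h6 : g 1 = 0 := by
    have h5 : g 0 * 0 + g 1 * 1 = 0 := h3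
    rw [mul_one, mul_zero, zero_add] at h5
    exact h5
  intro i
  fin_cases i
  · exact h4
  · exact h6

open Classical in
theorem in1 {F : Type} [Field F] [Finite F] [DecidableEq (RatFunc F)] {α : ℕ} {c : F}
    {A : Fin 3 → F[X]} (hq : 2 ∣ Nat.card F - 1) (hα : 2 ∣ α * 3 + 1) (hc : c ≠ 0)
    (hA : ∀ i k, i ≠ k → A i ≠ A k) (hG : GenA 2 A) (ε : ℝ) (hε : 0 < ε) :
    ∃ n₀ : ℕ, ∀ n : ℕ, n₀ ≤ n →
      (((Cls (dl A) n).filter fun D => ∃ δ δ' : Fin 3 → RatFunc F,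
        IsSln 2 α c A D δ ∧ IsSln 2 α c A D δ' ∧
        (∃ P ∈ pf D, ∀ k, PL.ex 2 P (δ k) = 0 ∧ PL.ex 2 P (δ' k) = 0) ∧
        (∀ Q ∈ pf D, PL.ex 2 Q (δ 0) + PL.ex 2 Q (δ' 1) = 0) ∧
        ¬ ∀ k, IsSquare (δ k) ∧ IsSquare (δ' k)).card : ℝ) ≤ ε * (Nat.card F : ℝ) ^ n := by
  letI : Fintype (XX 3 2) := Fintype.ofFinite _
  haveI : Nontrivial (XX 3 2) := nontriv_XX (by omega)
  have hm : Nat.Coprime 3 2 := by decide
  have hΔ : dl A ≠ 0 := by
    unfold dl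
    rw [Finset.prod_ne_zero_iff]
    intro p hp
    exact sub_ne_zero.2 (hA p.1 p.2 (mem_prs.1 hp).ne)
  obtain ⟨χ⟩ := exists_LChar F Nat.prime_two hq
  obtain ⟨Wl, Wi, hL, hWl, hWi⟩ := exists_lokx χ hq hm hα c hA
  obtain ⟨n₀, h⟩ := in0 χ (BB_good hm) (fun h2 => absurd rfl h2) hΔ (dok_DC χ c A Wl Wi)
    (genA_DC χ c hA hG Wl Wi)
    (fun n _ D hD => tk2 χ hm hα hc hA hL hWl hWi hD) 2 in1_e in1_lin ε hε
  refine ⟨n₀, fun n hn => le_trans ?_ (h n hn)⟩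
  have hsub : ((Cls (dl A) n).filter fun D => ∃ δ δ' : Fin 3 → RatFunc F,
        IsSln 2 α c A D δ ∧ IsSln 2 α c A D δ' ∧
        (∃ P ∈ pf D, ∀ k, PL.ex 2 P (δ k) = 0 ∧ PL.ex 2 P (δ' k) = 0) ∧
        (∀ Q ∈ pf D, PL.ex 2 Q (δ 0) + PL.ex 2 Q (δ' 1) = 0) ∧
        ¬ ∀ k, IsSquare (δ k) ∧ IsSquare (δ' k)) ⊆
      (Cls (dl A) n).filter fun D => ∃ z ∈ KM χ (dtk (DC χ c A Wl Wi) 2) D,
        (∃ s, ∀ P, ∑ j, in1_e j (z.2 P j) = s) ∧
          ∀ σ, z ≠ torz (dtk (DC χ c A Wl Wi) 2) D σ := by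
    intro D hD
    rw [Finset.mem_filter] at hD ⊢
    obtain ⟨hD1, δ, δ', hδ, hδ', ⟨P₀, hP₀, hP₀2⟩, hQ, hnot⟩ := hD
    refine ⟨hD1, ?_⟩
    obtain ⟨hDm, hDn, hDs, hDc⟩ := mem_Cls.1 hD1
    obtain ⟨Z, hZ0, hZ1⟩ : ∃ Z : Fin 2 → EE (XX 3 2) (pf (dl A)) × (pf D → XX 3 2),
        Z 0 = zM χ A D δ ∧ Z 1 = zM χ A D δ' :=
      ⟨![zM χ A D δ, zM χ A D δ'], rfl, rfl⟩
    have hZm : ∀ j, Z j ∈ KM χ (DC χ c A Wl Wi) D := by
      intro j
      fin_cases j
      · show Z 0 ∈ _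
        rw [hZ0]
        exact zM_mem χ hm hα hc hA hDm hDs hDc hδ hWl hWi
      · show Z 1 ∈ _
        rw [hZ1]
        exact zM_mem χ hm hα hc hA hDm hDs hDc hδ' hWl hWi
    have hex : ∀ (P : pf D) (k : Fin 3), ((Z 0).2 P).1 k = PL.ex 2 P.1 (δ k) ∧
        ((Z 1).2 P).1 k = PL.ex 2 P.1 (δ' k) := by
      intro P k
      rw [hZ0, hZ1]
      exact ⟨toX_apply (sln_ex hδ (mem_pf' P.2).2.1) k, toX_apply (sln_ex hδ' (mem_pf' P.2).2.1) k⟩
    refine ⟨((fun j => (Z j).1.1, fun v j => (Z j).1.2 v), fun P j => (Z j).2 P), ?_, ?_, ?_⟩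
    · exact in1_mem χ (DC χ c A Wl Wi) 2 D _ (fun j => hZm j)
    · refine ⟨0, fun P => ?_⟩
      rw [Fin.sum_univ_two]
      show in1_e 0 ((Z 0).2 P) + in1_e 1 ((Z 1).2 P) = 0
      rw [in1_e0, in1_e1, (hex P 0).1, (hex P 1).2]
      exact hQ P.1 P.2
    · intro σ hσ
      have hσ0 : σ = 0 := by
        funext j
        have h1 := congrArg (fun z : EE (Fin 2 → XX 3 2) (pf (dl A)) × (pf D → Fin 2 → XX 3 2) =>
          z.2 ⟨P₀, hP₀⟩ j) hσ
        have h2 : (Z j).2 ⟨P₀, hP₀⟩ = σ j := h1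
        rw [← h2]
        apply Subtype.ext
        funext k
        fin_cases j
        · exact ((hex ⟨P₀, hP₀⟩ k).1).trans (hP₀2 k).1
        · exact ((hex ⟨P₀, hP₀⟩ k).2).trans (hP₀2 k).2
      have hZ : ∀ j, Z j = 0 := by
        intro j
        rw [hσ0] at hσ
        refine Prod.ext (Prod.ext ?_ ?_) ?_
        · have h1 := congrArg (fun z : EE (Fin 2 → XX 3 2) (pf (dl A)) ×
            (pf D → Fin 2 → XX 3 2) => z.1.1 j) hσ
          have h2 : (Z j).1.1 = (-(dtk (DC χ c A Wl Wi) 2).bet (0 : Fin 2 → XX 3 2)) j := h1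
          rw [h2, map_zero, neg_zero]
          rfl
        · funext v
          have h1 := congrArg (fun z : EE (Fin 2 → XX 3 2) (pf (dl A)) ×
            (pf D → Fin 2 → XX 3 2) => z.1.2 v j) hσ
          have h2 : (Z j).1.2 v = (-(dtk (DC χ c A Wl Wi) 2).L v (0 : Fin 2 → XX 3 2)) j := h1
          rw [h2, map_zero, neg_zero]
          rfl
        · funext P
          have h1 := congrArg (fun z : EE (Fin 2 → XX 3 2) (pf (dl A)) ×
            (pf D → Fin 2 → XX 3 2) => z.2 P j) hσ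
          exact h1
      apply hnot
      intro k
      exact ⟨in1_sq χ hα hc hA hDm hδ (by rw [← hZ0, hZ 0]) k,
        in1_sq χ hα hc hA hDm hδ' (by rw [← hZ1, hZ 1]) k⟩
  have h2 := Finset.card_le_card hsub
  exact_mod_cast h2

end Pool.Agent.H94.FS
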