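import Pool.Agent.H94.PN.CNT

set_option autoImplicit false

/-!
# [H94 FS SUB] The maximal unlinked sets which are contained in a hyperplane

`e j : X → ZMod ℓ`, `j : Fin k`, linearly independent functionals, `s : ZMod ℓ`.  The sets `U ∈ MaxU (CDX (Bk B k))`, `¬ Non`, with `∑ j, e j (u.1 j) = s` for all `u ∈ U` are exactly the sets `U_x = {u | u.1 = x}` with `∑ j, e j (x j) = s`.
* `str`: `U = u₀ + TX B Λ`, `Lag ℓ k Λ`.  For `g ∈ Λ`, `x ∈ X` the pure vector `(g.1 i • x, g.2 i • x)` is in `TX B Λ` (`tx_pure`), so `∑ j, e j (g.1 j • x) = 0` for all `x`, `∑ j, g.1 j • e j = 0`, `g.1 = 0`.  So `Λ ⊆ {g | g.1 = 0}`, which has `ℓ ^ k` elements, so it is equal (`Lag`: `card Λ = ℓ ^ k`);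
  `TX B Λ = {w | w.1 = 0}` (`mem_TX`; `B y (w.1 i) = 0` for all `y` iff `w.1 i = 0`: nondegenerate), `U = U_x` for `x = u₀.1`.
* Conversely `Λ₀ = {g | g.1 = 0}` satisfies `Lag` and `U_x = (x, 0) + TX B Λ₀`: `str_conv`.
* So the number is the number of the `x` (`x ↦ U_x` is injective: `U_x` is not empty).
-/

namespace Pool.Agent.H94.FS

open Pool.Agent.H94.PL
open Pool.Agent.H94.PM
open Pool.Agent.H94.PN

variable {ℓ k : ℕ} [hl : Fact ℓ.Prime] {X : Type} [AddCommGroup X] [Module (ZMod ℓ) X] [Fintype X]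
  [DecidableEq X] {B : X →ₗ[ZMod ℓ] X →ₗ[ZMod ℓ] ZMod ℓ}

/-- the vectors with first component zero -/
private def L00 (ℓ k : ℕ) : Submodule (ZMod ℓ) (H0 ℓ k) where
  carrier := {g | g.1 = 0}
  zero_mem' := rfl
  add_mem' := by
    intro a b ha hb
    have ha' : a.1 = 0 := ha
    have hb' : b.1 = 0 := hb
    show (a + b).1 = 0
    rw [Prod.fst_add, ha', hb', add_zero]
  smul_mem' := by
    intro c a ha
    have ha' : a.1 = 0 := ha
    show (c • a).1 = 0
    rw [Prod.smul_fst, ha', smul_zero]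

private theorem mem_L00 {ℓ k : ℕ} {g : H0 ℓ k} : g ∈ L00 ℓ k ↔ g.1 = 0 := Iff.rfl

private theorem card_L00 (ℓ k : ℕ) : Nat.card (L00 ℓ k) = ℓ ^ k := by
  have h : Nat.card (L00 ℓ k) = Nat.card (Fin k → ZMod ℓ) := by
    refine Nat.card_congr ⟨fun g => g.1.2, fun y => ⟨(0, y), rfl⟩, ?_, ?_⟩
    · rintro ⟨⟨a, b⟩, h⟩
      have h1 : a = 0 := h
      apply Subtype.ext
      show ((0 : Fin k → ZMod ℓ), b) = (a, b)
      rw [h1]
    · intro y
      rfl
  rw [h, Nat.card_fun, Nat.card_zmod, Nat.card_eq_fintype_card, Fintype.card_fin]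

private theorem lag_L00 (ℓ k : ℕ) : Lag ℓ k (L00 ℓ k) := by
  have hz : ∀ y : Fin k → ZMod ℓ, dotp y 0 = 0 := by
    intro y
    simp [dotp]
  refine ⟨card_L00 ℓ k, ?_, ?_⟩
  · intro x hx y hy
    rw [mem_L00] at hx hy
    rw [hx, hy, hz, hz, add_zero]
  · intro _ x hx
    rw [mem_L00] at hx
    rw [hx, hz]

omit [Fintype X] [DecidableEq X] in
private theorem tx_L00 (hB : BGood B) {w : (Fin k → X) × (Fin k → X)} :
    w ∈ TX B (L00 ℓ k) ↔ w.1 = 0 := by
  rw [mem_TX]
  constructor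
  · intro h
    funext i
    refine hB.nondeg _ fun y => ?_
    have h1 : ((fun i => B y (w.1 i)) : Fin k → ZMod ℓ) = 0 := h y
    have h2 := congrFun h1 i
    rw [hB.symm]
    exact h2
  · intro h y
    show ((fun i => B y (w.1 i)) : Fin k → ZMod ℓ) = 0
    funext i
    rw [h, Pi.zero_apply, map_zero, Pi.zero_apply]

open Classical in
theorem sub (hB : BGood B) [Nontrivial X] (hx : ℓ ≠ 2 → ∃ x : X, B x x ≠ 0)
    (halt : ℓ = 2 → ∀ x, B x x = 0) {S : Type} (dt : Dat ℓ X S)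
    (hs : ∀ v x y, B (dt.L v x) y = B x (dt.L v y))
    (hG : Algebra.adjoin (ZMod ℓ) (Set.range dt.L) = (⊤ : Subalgebra (ZMod ℓ) (Module.End (ZMod ℓ) X)))
    (e : Fin k → X →ₗ[ZMod ℓ] ZMod ℓ) (he : LinearIndependent (ZMod ℓ) e) (s : ZMod ℓ) :
    (((MaxU (CDX (Bk B k))).filter fun U => ¬ Non (Bk B k) (dtk dt k) U).filter
      fun U => ∀ u ∈ U, ∑ j, e j (u.1 j) = s).card =
      (Finset.univ.filter fun x : Fin k → X => ∑ j, e j (x j) = s).card := by
  obtain ⟨Φ, hΦ⟩ : ∃ Φ : (Fin k → X) → Finset ((Fin k → X) × (Fin k → X)),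
      ∀ x u, u ∈ Φ x ↔ u.1 = x :=
    ⟨fun x => Finset.univ.filter fun u => u.1 = x, fun x u => by
      rw [Finset.mem_filter]
      exact ⟨fun h => h.2, fun h => ⟨Finset.mem_univ _, h⟩⟩⟩
  have hinj : Function.Injective Φ := by
    intro x y hxy
    have h1 : ((x, 0) : (Fin k → X) × (Fin k → X)) ∈ Φ x := (hΦ x _).2 rfl
    rw [hxy] at h1
    exact (hΦ y _).1 h1
  rw [← Finset.card_image_of_injective (Finset.univ.filter fun x : Fin k → X => ∑ j, e j (x j) = s)
    hinj]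
  congr 1
  ext U
  rw [Finset.mem_filter, Finset.mem_filter, Finset.mem_image]
  constructor
  · rintro ⟨⟨hU, hn⟩, hP⟩
    obtain ⟨u₀, Λ, hΛ, hUΛ⟩ := str hB hx dt hs hG U hU hn
    have hu₀ : u₀ ∈ U := by
      rw [hUΛ, sub_self]
      exact Submodule.zero_mem _
    have hle : Λ ≤ L00 ℓ k := by
      intro g hg
      rw [mem_L00]
      have hsum : ∀ x : X, ∑ j, e j (g.1 j • x) = 0 := by
        intro x
        have h1 := tx_pure (B := B) hg x
        have h2 : u₀ + ((fun i => g.1 i • x, fun i => g.2 i • x) : (Fin k → X) × (Fin k → X)) ∈ U := by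
          rw [hUΛ, add_sub_cancel_left]
          exact h1
        have h3 := hP _ h2
        have h4 := hP _ hu₀
        have h5 : ∑ j, e j ((u₀ + ((fun i => g.1 i • x, fun i => g.2 i • x) :
            (Fin k → X) × (Fin k → X))).1 j) = ∑ j, e j (u₀.1 j) + ∑ j, e j (g.1 j • x) := by
          rw [← Finset.sum_add_distrib]
          refine Finset.sum_congr rfl fun j _ => ?_
          rw [← map_add]
          rfl
        rw [h5, h4] at h3
        exact add_eq_left.1 h3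
      have h6 : ∑ j, g.1 j • e j = 0 := by
        refine LinearMap.ext fun x => ?_
        rw [LinearMap.sum_apply, LinearMap.zero_apply, ← hsum x]
        refine Finset.sum_congr rfl fun j _ => ?_
        rw [LinearMap.smul_apply, map_smul]
      funext j
      exact Fintype.linearIndependent_iff.1 he g.1 h6 j
    have heq : Λ = L00 ℓ k := by
      apply SetLike.coe_injective
      have hf : (L00 ℓ k : Set (H0 ℓ k)).Finite := Set.toFinite _
      refine Set.eq_of_subset_of_ncard_le hle ?_ hf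
      rw [← Nat.card_coe_set_eq, ← Nat.card_coe_set_eq]
      have h1 : Nat.card (L00 ℓ k) = Nat.card Λ := by rw [card_L00, hΛ.1]
      exact h1.le
    refine ⟨u₀.1, ?_, ?_⟩
    · rw [Finset.mem_filter]
      exact ⟨Finset.mem_univ _, hP _ hu₀⟩
    · ext u
      rw [hΦ, hUΛ, heq, tx_L00 hB, Prod.fst_sub, sub_eq_zero]
  · rintro ⟨x, hx1, rfl⟩
    have h1 := str_conv hB halt dt hs (lag_L00 ℓ k) (x, 0) (Φ x) (fun u => by
      rw [hΦ, tx_L00 hB, Prod.fst_sub, sub_eq_zero])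
    refine ⟨h1, fun u hu => ?_⟩
    rw [(hΦ x u).1 hu]
    exact (Finset.mem_filter.1 hx1).2

end Pool.Agent.H94.FS
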