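import Pool.Agent.H94.PM.TOTM

set_option autoImplicit false

/-!
# [H94 FS TTR] The number of classes with restricted labels as a sum of weights

The proof of `totm` (`PM/TOTM.lean`) with the sum over `z : pf D → X × X` restricted to the `z` with `Y (z P).1` for all `P`:
* `totm_one` becomes: for `D ∈ Cls Δ n`, `(if R (ty D) then card {z ∈ KM | ∀ P, Y (z.2 P)} else 0) = ∑ z with ∀ P, Y (z P).1, (1 / N) ^ om D * GK .. * ∏ ..` (in `totm_fou` the sum over `x : pf D → X` is restricted to the `x` with `Y (x P)` for all `P`, the sum over `c : pf D → X` is not);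
* apply `tupc` to the function `f D x = if (∀ u, ¬ Y u.1 → x u = 1) then (the weight) else 0`: for `x = part D z`: `part D z u = 1` iff `z P ≠ u` for all `P` (a product of monic irreducible polynomials over the `P` with `z P = u`), so the condition is `∀ P, Y (z P).1`.
-/

namespace Pool.Agent.H94.FS

open Polynomial
open Pool.Agent.H94.PL
open Pool.Agent.H94.PM
open Pool.Agent.H94.PC (Mo Sq Pr pf om Mn mem_Mo mem_Sq mem_Pr mem_pf mem_pf' part)

variable {ℓ : ℕ} [hl : Fact ℓ.Prime] {X : Type} [AddCommGroup X] [Module (ZMod ℓ) X] [Fintype X]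
  [DecidableEq X] (B : X →ₗ[ZMod ℓ] X →ₗ[ZMod ℓ] ZMod ℓ)
  {F : Type} [Field F] [Finite F] (χ : LChar F ℓ) {Δ : F[X]} (dt : Dat ℓ X (pf Δ))

open Classical in
private theorem ttr_card (D : F[X]) (Y : X → Prop) :
    (Nat.card {z : KM χ dt D // ∀ P, Y (z.1.2 P)} : ℂ) =
      ∑ w : EE X (pf Δ) × (pf D → X), if w ∈ KM χ dt D ∧ ∀ P, Y (w.2 P) then (1 : ℂ) else 0 := by
  rw [Finset.sum_boole]
  congr 1
  have h := Nat.card_congr (Equiv.subtypeSubtypeEquivSubtypeInter
    (fun w : EE X (pf Δ) × (pf D → X) => w ∈ KM χ dt D) (fun w => ∀ P, Y (w.2 P)))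
  refine Eq.trans h ?_
  rw [Nat.card_eq_fintype_card]
  exact Fintype.card_subtype _

open Classical in
private theorem ttr_key (hB : BGood B) (D : F[X]) (Y : X → Prop)
    (w : EE X (pf Δ) × (pf D → X)) :
    (if w ∈ KM χ dt D ∧ ∀ P, Y (w.2 P) then (1 : ℂ) else 0) =
      ∑ c : pf D → X, if ∀ P, Y (w.2 P) then (1 / (Fintype.card X : ℂ)) ^ om D *
        (if (w.1, xi χ Δ D w.2) ∈ dt.W (ty χ Δ D) then
          ps (∑ P : pf D, B (c P) (EM χ dt D w P)) else 0) else 0 := by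
  have hN : (Fintype.card X : ℂ) ≠ 0 := by
    have : Fintype.card X ≠ 0 := Fintype.card_ne_zero
    exact_mod_cast this
  by_cases hY : ∀ P, Y (w.2 P)
  swap
  · rw [if_neg (fun h => hY h.2)]
    simp only [if_neg hY, Finset.sum_const_zero]
  simp only [if_pos hY]
  obtain ⟨e2, e2'⟩ := fou_prod (ι := pf D) (A := X)
    (fun P e => ps (B e (EM χ dt D w P))) (fun P => EM χ dt D w P = 0)
    (Fintype.card X : ℂ) (fun P hP => by rw [ort_X B hB, if_pos hP])
    (fun P hP => by rw [ort_X B hB, if_neg hP])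
  by_cases ha : (w.1, xi χ Δ D w.2) ∈ dt.W (ty χ Δ D)
  · simp only [if_pos ha, ps_sum]
    rw [← Finset.mul_sum]
    by_cases hb : ∀ P, EM χ dt D w P = 0
    · rw [if_pos ⟨(mem_KM χ dt D).2 ⟨ha, hb⟩, hY⟩]
      have e3 := e2 hb
      rw [Fintype.card_coe] at e3
      refine Eq.trans ?_ (congrArg (fun t => (1 / (Fintype.card X : ℂ)) ^ om D * t) e3.symm)
      show 1 = (1 / (Fintype.card X : ℂ)) ^ om D * (Fintype.card X : ℂ) ^ (pf D).card
      rw [om, ← mul_pow, one_div, inv_mul_cancel₀ hN, one_pow]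
    · rw [if_neg (fun h => hb ((mem_KM χ dt D).1 h.1).2)]
      have e3 := e2' hb
      refine Eq.trans ?_ (congrArg (fun t => (1 / (Fintype.card X : ℂ)) ^ om D * t) e3.symm)
      show 0 = (1 / (Fintype.card X : ℂ)) ^ om D * 0
      rw [mul_zero]
  · rw [if_neg (fun h => ha ((mem_KM χ dt D).1 h.1).1)]
    simp only [if_neg ha, mul_zero, Finset.sum_const_zero]

open Classical in
/-- the Fourier expansion of the number of classes with restricted labels -/
private theorem ttr_fou (hB : BGood B) (D : F[X]) (Y : X → Prop) :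
    (Nat.card {z : KM χ dt D // ∀ P, Y (z.1.2 P)} : ℂ) =
      ∑ z : pf D → X × X, if ∀ P, Y (z P).1 then (1 / (Fintype.card X : ℂ)) ^ om D *
      (∑ ε : EE X (pf Δ), if (ε, xi χ Δ D (fun P => (z P).1)) ∈ dt.W (ty χ Δ D) then
        ps (∑ P : pf D, B (z P).2 (EM χ dt D (ε, fun P => (z P).1) P)) else 0) else 0 := by
  let E : (EE X (pf Δ) × (pf D → X)) × (pf D → X) ≃ (pf D → X × X) × EE X (pf Δ) :=
    { toFun := fun a => (fun P => (a.1.2 P, a.2 P), a.1.1)
      invFun := fun b => ((b.2, fun P => (b.1 P).1), fun P => (b.1 P).2)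
      left_inv := fun a => rfl
      right_inv := fun b => rfl }
  let f : (EE X (pf Δ) × (pf D → X)) × (pf D → X) → ℂ := fun a =>
    if ∀ P, Y (a.1.2 P) then (1 / (Fintype.card X : ℂ)) ^ om D *
        (if (a.1.1, xi χ Δ D a.1.2) ∈ dt.W (ty χ Δ D) then
          ps (∑ P : pf D, B (a.2 P) (EM χ dt D a.1 P)) else 0) else 0
  let g : (pf D → X × X) × EE X (pf Δ) → ℂ := fun b =>
    if ∀ P, Y (b.1 P).1 then (1 / (Fintype.card X : ℂ)) ^ om D *
        (if (b.2, xi χ Δ D (fun P => (b.1 P).1)) ∈ dt.W (ty χ Δ D) then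
          ps (∑ P : pf D, B (b.1 P).2 (EM χ dt D (b.2, fun P => (b.1 P).1) P)) else 0) else 0
  have h0 : ∀ a, f a = g (E a) := fun a => rfl
  have h2 : ∑ w : EE X (pf Δ) × (pf D → X), ∑ c : pf D → X, f (w, c) = ∑ a, f a :=
    (Fintype.sum_prod_type f).symm
  have h3 : ∑ b, g b = ∑ z : pf D → X × X, ∑ ε : EE X (pf Δ), g (z, ε) :=
    Fintype.sum_prod_type g
  rw [ttr_card χ dt D Y, Finset.sum_congr rfl (fun w _ => ttr_key B χ dt hB D Y w)]
  refine Eq.trans (h2.trans ((Fintype.sum_equiv E f g h0).trans h3)) ?_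
  refine Finset.sum_congr rfl fun z _ => ?_
  show (∑ ε : EE X (pf Δ), if ∀ P, Y (z P).1 then (1 / (Fintype.card X : ℂ)) ^ om D *
        (if (ε, xi χ Δ D (fun P => (z P).1)) ∈ dt.W (ty χ Δ D) then
          ps (∑ P : pf D, B (z P).2 (EM χ dt D (ε, fun P => (z P).1) P)) else 0) else 0) = _
  by_cases hY : ∀ P, Y (z P).1
  · simp only [if_pos hY]
    rw [Finset.mul_sum]
  · simp only [if_neg hY, Finset.sum_const_zero]

open Classical in
private theorem ttr_one (hB : BGood B) (R : Tp ℓ (pf Δ) → Prop) (Y : X → Prop) {n : ℕ} {D : F[X]}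
    (hD : D ∈ Cls Δ n) :
    (if R (ty χ Δ D) then (Nat.card {z : KM χ dt D // ∀ P, Y (z.1.2 P)} : ℂ) else 0) =
      ∑ z : pf D → X × X, if ∀ P, Y (z P).1 then (1 / (Fintype.card X : ℂ)) ^ om D *
        GK B dt R (fun u => ty χ Δ (part D z u)) *
        (∏ u, ∏ w, ps ((CDX B).Phi u w * lm χ (part D z w) (part D z u))) else 0 := by
  by_cases hR : R (ty χ Δ D)
  · rw [if_pos hR, ttr_fou B χ dt hB D Y]
    refine Finset.sum_congr rfl fun z _ => ?_
    by_cases hY : ∀ P, Y (z P).1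
    swap
    · rw [if_neg hY, if_neg hY]
    rw [if_pos hY, if_pos hY, mul_assoc]
    congr 1
    rw [Finset.prod_congr rfl fun u _ => (ps_sum Finset.univ fun w =>
      (CDX B).Phi u w * lm χ (part D z w) (part D z u)).symm, ← ps_sum]
    unfold GK
    rw [totm_sum χ hD z, if_pos hR, totm_tens χ hD z, Finset.sum_mul]
    refine (Finset.sum_congr rfl fun ε _ => ?_).trans (totm_inst _ _ _)
    rw [totm_exp B χ dt hD z ε]
    split_ifs
    · rw [ps_add]
    · rw [zero_mul]
  · rw [if_neg hR]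
    refine (Finset.sum_eq_zero fun z _ => ?_).symm
    unfold GK
    rw [totm_sum χ hD z, if_neg hR, mul_zero, zero_mul, ite_self]

private theorem ttr_part {D : F[X]} (z : pf D → X × X) (Y : X → Prop) :
    (∀ u : X × X, ¬ Y u.1 → part D z u = 1) ↔ ∀ P, Y (z P).1 := by
  constructor
  · intro h P
    by_contra hP
    have h1 := h (z P) hP
    unfold part at h1
    have h2 : P.1 ∣ (1 : F[X]) := by
      rw [← h1]
      refine Dvd.dvd.trans ?_ (Finset.dvd_prod_of_mem _ (Finset.mem_univ P))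
      rw [if_pos rfl]
    exact (mem_pf' P.2).2.1.not_isUnit (isUnit_of_dvd_one h2)
  · intro h u hu
    unfold part
    refine Finset.prod_eq_one fun P _ => ?_
    rw [if_neg]
    rintro rfl
    exact hu (h P)

open Classical in
theorem totr (hB : BGood B) (R : Tp ℓ (pf Δ) → Prop) (Y : X → Prop) (n : ℕ) :
    ∑ D ∈ Cls Δ n, (if R (ty χ Δ D) then
        (Nat.card {z : KM χ dt D // ∀ P, Y (z.1.2 P)} : ℂ) else 0) =
      ∑ x ∈ Finset.univ.filter (fun x : X × X → Mn F n => ∀ u, ¬ Y u.1 → (x u).1 = 1),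
        WG χ (CDX B) Δ (GK B dt R) n x := by
  have h1 : ∀ D ∈ Cls Δ n, (if R (ty χ Δ D) then
      (Nat.card {z : KM χ dt D // ∀ P, Y (z.1.2 P)} : ℂ) else 0) =
      ∑ z : pf D → X × X, (fun (D : F[X]) (x : X × X → F[X]) =>
        if ∀ u : X × X, ¬ Y u.1 → x u = 1 then (1 / (Fintype.card X : ℂ)) ^ om D *
        GK B dt R (fun u => ty χ Δ (x u)) *
        (∏ u, ∏ w, ps ((CDX B).Phi u w * lm χ (x w) (x u))) else 0) D (part D z) := by
    intro D hD
    rw [ttr_one B χ dt hB R Y hD]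
    refine Finset.sum_congr rfl fun z _ => ?_
    simp only [ttr_part z Y]
  rw [Finset.sum_congr rfl h1]
  have h3 := tupc (κ := X × X) n (Cls Δ n) (fun D hD => by
    obtain ⟨h4, h5, h6, _⟩ := mem_Cls.1 hD
    exact ⟨h4, h6, h5.le⟩)
    (fun (D : F[X]) (x : X × X → F[X]) =>
        if ∀ u : X × X, ¬ Y u.1 → x u = 1 then (1 / (Fintype.card X : ℂ)) ^ om D *
        GK B dt R (fun u => ty χ Δ (x u)) *
        (∏ u, ∏ w, ps ((CDX B).Phi u w * lm χ (x w) (x u))) else 0)
  refine Eq.trans ?_ (h3.trans ?_)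
  · rfl
  · rw [Finset.sum_filter]
    refine Finset.sum_congr rfl fun x _ => ?_
    unfold WG
    by_cases h5 : (∏ i, (x i).1) ∈ Cls Δ n
    · rw [if_pos h5, if_pos h5]
      rfl
    · rw [if_neg h5, if_neg h5, ite_self]

end Pool.Agent.H94.FS
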