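import Pool.Agent.H94.FS.RES
import Pool.Agent.H94.FS.TTR
import Pool.Agent.H94.FS.SUB
import Pool.Agent.H94.PN.MOM

set_option autoImplicit false

/-!
# [H94 FS MMR] The moments with labels in a hyperplane

The proof of `mom` (`PN/MOM.lean`) with `angr` (`p u = (∑ j, e j (u.1 j) = s)`) instead of `ang`, `totr` (`Y x = (∑ j, e j (x j) = s)`) instead of `totm` and `sub` instead of `cnt`; `R = fun _ => True`; no `km_pow_card`.
The weight: `G = (1 / M) • GK (Bk B k) (dtk dt k) R`, `M = card (EE Xk (pf Δ))` (`norm_GK`), `wg_smul`, `au_smul`, `avu_non`, `str`, `au_one` as there.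
-/

namespace Pool.Agent.H94.FS

open Polynomial
open Pool.Agent.H94.PL
open Pool.Agent.H94.PM
open Pool.Agent.H94.PN
open Pool.Agent.H94.PC (Mo Sq Pr pf om Mn mem_Mo mem_Sq mem_Pr mem_pf mem_pf')

variable {ℓ : ℕ} [hl : Fact ℓ.Prime] {X : Type} [AddCommGroup X] [Module (ZMod ℓ) X] [Fintype X]
  [DecidableEq X] {B : X →ₗ[ZMod ℓ] X →ₗ[ZMod ℓ] ZMod ℓ}
  {F : Type} [Field F] [Finite F] (χ : LChar F ℓ) {Δ : F[X]}

open Classical in
theorem mmr (hB : BGood B) [Nontrivial X] (hx : ℓ ≠ 2 → ∃ x : X, B x x ≠ 0) (hΔ : Δ ≠ 0)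
    {dt : Dat ℓ X (pf Δ)} (hd : DOK B dt (χ.lg (-1)))
    (hG : Algebra.adjoin (ZMod ℓ) (Set.range dt.L) = (⊤ : Subalgebra (ZMod ℓ) (Module.End (ZMod ℓ) X)))
    (hT : ∀ n, 1 ≤ n → ∀ D ∈ Cls Δ n, TOK B dt (ty χ Δ D)) (k : ℕ)
    (e : Fin k → X →ₗ[ZMod ℓ] ZMod ℓ) (he : LinearIndependent (ZMod ℓ) e) (s : ZMod ℓ)
    (ε : ℝ) (hε : 0 < ε) :
    ∃ n₀ : ℕ, ∀ n : ℕ, n₀ ≤ n →
      |∑ D ∈ Cls Δ n, (Nat.card {z : KM χ (dtk dt k) D // ∀ P, ∑ j, e j (z.1.2 P j) = s} : ℝ) -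
        ((Finset.univ.filter fun x : Fin k → X => ∑ j, e j (x j) = s).card : ℝ) *
          ((Cls Δ n).card : ℝ)| ≤ ε * (Nat.card F : ℝ) ^ n := by
  obtain ⟨Y, hY⟩ : ∃ Y : (Fin k → X) → Prop, ∀ x, Y x ↔ ∑ j, e j (x j) = s :=
    ⟨fun x => ∑ j, e j (x j) = s, fun x => Iff.rfl⟩
  obtain ⟨R, hR⟩ : ∃ R : Tp ℓ (pf Δ) → Prop, ∀ t, R t := ⟨fun _ => True, fun _ => trivial⟩
  have hBk := Bk_good hB k
  have hM : 0 < Fintype.card (EE (Fin k → X) (pf Δ)) := Fintype.card_pos_iff.2 ⟨0⟩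
  obtain ⟨M, hMd⟩ : ∃ M : ℝ, M = (Fintype.card (EE (Fin k → X) (pf Δ)) : ℝ) := ⟨_, rfl⟩
  have hM0 : 0 < M := by rw [hMd]; exact_mod_cast hM
  obtain ⟨n₀, h⟩ := angr χ (CDX (Bk B k)) (cdx_good' (Bk B k) hBk) (fun u => Y u.1) Δ hΔ (ε / M)
    (by positivity)
  refine ⟨max n₀ 1, fun n hn => ?_⟩
  have hn0 : n₀ ≤ n := (le_max_left _ _).trans hn
  have hn1 : 1 ≤ n := (le_max_right _ _).trans hn
  have h1 := h n hn0 (fun τ => (M : ℂ)⁻¹ * GK (Bk B k) (dtk dt k) R τ) (by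
    intro τ
    rw [norm_mul, norm_inv, Complex.norm_real, Real.norm_of_nonneg hM0.le, inv_mul_le_iff₀ hM0,
      mul_one, hMd]
    exact norm_GK (Bk B k) (dtk dt k) R τ)
  have e1 : ∀ T : Finset ((Fin k → X) × (Fin k → X) → Mn F n), ∑ x ∈ T,
      WG χ (CDX (Bk B k)) Δ (fun τ => (M : ℂ)⁻¹ * GK (Bk B k) (dtk dt k) R τ) n x =
      (M : ℂ)⁻¹ * ∑ x ∈ T,
        WG χ (CDX (Bk B k)) Δ (GK (Bk B k) (dtk dt k) R) n x := by
    intro T
    rw [Finset.mul_sum]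
    exact Finset.sum_congr rfl fun x _ => wg_smul χ (CDX (Bk B k)) _ _ n x
  have e2 : ∀ T : Finset (Finset ((Fin k → X) × (Fin k → X))), ∑ U ∈ T, ∑ D ∈ Cls Δ n,
      AU χ (CDX (Bk B k)) Δ (fun τ => (M : ℂ)⁻¹ * GK (Bk B k) (dtk dt k) R τ) U (ty χ Δ D) =
      (M : ℂ)⁻¹ * ∑ U ∈ T, ∑ D ∈ Cls Δ n,
        AU χ (CDX (Bk B k)) Δ (GK (Bk B k) (dtk dt k) R) U (ty χ Δ D) := by
    intro T
    rw [Finset.mul_sum]
    refine Finset.sum_congr rfl fun U _ => ?_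
    rw [Finset.mul_sum]
    exact Finset.sum_congr rfl fun D _ => au_smul χ (CDX (Bk B k)) _ _ U _
  rw [e1, e2, ← mul_sub, norm_mul, norm_inv, Complex.norm_real, Real.norm_of_nonneg hM0.le,
    inv_mul_le_iff₀ hM0] at h1
  have h2 : M * (ε / M * (Nat.card F : ℝ) ^ n) = ε * (Nat.card F : ℝ) ^ n := by
    field_simp
  rw [h2, ← totr (Bk B k) χ (dtk dt k) hBk R Y n] at h1
  have h3 : ∑ U ∈ (MaxU (CDX (Bk B k))).filter (fun U => ∀ u ∈ U, Y u.1), ∑ D ∈ Cls Δ n,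
      AU χ (CDX (Bk B k)) Δ (GK (Bk B k) (dtk dt k) R) U (ty χ Δ D) =
      (((Finset.univ.filter fun x : Fin k → X => ∑ j, e j (x j) = s).card : ℝ) *
        ((Cls Δ n).card : ℝ) : ℝ) := by
    have h4 : ∀ U ∈ (MaxU (CDX (Bk B k))).filter (fun U => ∀ u ∈ U, Y u.1), ∀ D ∈ Cls Δ n,
        AU χ (CDX (Bk B k)) Δ (GK (Bk B k) (dtk dt k) R) U (ty χ Δ D) =
          (if ¬ Non (Bk B k) (dtk dt k) U then (1 : ℂ) else 0) := by
      intro U hU D hD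
      have hU1 := (Finset.mem_filter.1 hU).1
      by_cases hn : Non (Bk B k) (dtk dt k) U
      · rw [avu_non (Bk B k) χ (dtk dt k) R U hn, if_neg (not_not.2 hn)]
      · obtain ⟨u₀, Λ, hΛ, hU'⟩ := str hB hx dt hd.self hG U hU1 hn
        rw [if_pos hn, au_one χ hB hd (hT n hn1 D hD) hΛ u₀ U hU' R, if_pos (hR _)]
    have h5 : ∀ U ∈ (MaxU (CDX (Bk B k))).filter (fun U => ∀ u ∈ U, Y u.1), ∑ D ∈ Cls Δ n,
        AU χ (CDX (Bk B k)) Δ (GK (Bk B k) (dtk dt k) R) U (ty χ Δ D) =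
          (if ¬ Non (Bk B k) (dtk dt k) U then (1 : ℂ) else 0) * ((Cls Δ n).card : ℂ) := by
      intro U hU
      rw [Finset.sum_congr rfl (h4 U hU), Finset.sum_const, nsmul_eq_mul, mul_comm]
    rw [Finset.sum_congr rfl h5, ← Finset.sum_mul, Finset.sum_boole]
    have h6 : (((MaxU (CDX (Bk B k))).filter (fun U => ∀ u ∈ U, Y u.1)).filter
        fun U => ¬ Non (Bk B k) (dtk dt k) U).card =
        (Finset.univ.filter fun x : Fin k → X => ∑ j, e j (x j) = s).card := by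
      rw [← sub hB hx hd.alt dt hd.self hG e he s, Finset.filter_comm]
      congr 1
      refine Finset.filter_congr fun U _ => ?_
      refine forall_congr' fun u => ?_
      refine imp_congr Iff.rfl ?_
      exact hY u.1
    rw [h6]
    push_cast
    rfl
  have h4 : ((∑ D ∈ Cls Δ n, (Nat.card {z : KM χ (dtk dt k) D // ∀ P, ∑ j, e j (z.1.2 P j) = s} : ℝ)
      : ℝ) : ℂ) = ∑ D ∈ Cls Δ n, (if R (ty χ Δ D) then
        (Nat.card {z : KM χ (dtk dt k) D // ∀ P, Y (z.1.2 P)} : ℂ) else 0) := by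
    rw [Complex.ofReal_sum]
    refine Finset.sum_congr rfl fun D _ => ?_
    rw [if_pos (hR _)]
    have h5 : Nat.card {z : KM χ (dtk dt k) D // ∀ P, ∑ j, e j (z.1.2 P j) = s} =
        Nat.card {z : KM χ (dtk dt k) D // ∀ P, Y (z.1.2 P)} :=
      Nat.card_congr (Equiv.subtypeEquivRight fun z => forall_congr' fun P => (hY _).symm)
    rw [h5]
    push_cast
    rfl
  rw [h3, ← h4, ← Complex.ofReal_sub, Complex.norm_real, Real.norm_eq_abs] at h1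
  exact h1

end Pool.Agent.H94.FS
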