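import Pool.Agent.H94.PM.ANL

set_option autoImplicit false

/-!
# [H94 FS RES] The main asymptotic formula for configurations with restricted labels

`res C p`: the configuration `C` on the subtype of the labels with `p`, with the same `N`.
* `res_good`: unlinked sets of the subtype are unlinked sets of `V` (`Finset.map` with the subtype embedding, same cardinality); `nonconst`: for `w` in the subtype, not in `U`, `w.1` is not in the image of `U`.
* `angr`: `ang` for `res C p` and `G' τ' = G (extension of τ' by 0)`, and three translations: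
  (1) `x' ↦ x`, `x u = x' ⟨u, _⟩` for `p u` and `x u = 1` otherwise, is a bijection from `{u // p u} → Mn F n` to the `x` of the statement (`Mn F n` contains `1`), and `WG (res C p) G' x' = WG C G x`: the products over `u` (`Finset.prod_subtype`..., the other factors are `1`), `ty χ Δ 1 = 0` (`natDegree_one`, `lm χ v 1 = 0`), `lm χ 1 A = 0`, `lm χ A 1 = 0` (resultants with `1`).
  (2) `U' ↦ U'.map` is a bijection from `MaxU (res C p)` to the `U ∈ MaxU C` with `∀ u ∈ U, p u`.
  (3) `AU (res C p) G' U' t = AU C G (U'.map) t`: the same sum over `τ : U → Tp` (`mgU` extends by `0`); the two orders used in `rS` (`Fintype.equivFin`) are different, but on an unlinked set `Phi u w = - Phi w u`, so changing the order changes `rS` by a sum of terms `2 Phi u w d_u d_w`, and `2 χ.lg (-1) = χ.lg 1 = 0`: `ps (χ.lg (-1) * rS ..)` does not depend on the order (`self`: `Phi u u = 0`).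
-/

namespace Pool.Agent.H94.FS

open Polynomial
open Pool.Agent.H94.PL
open Pool.Agent.H94.PM
open Pool.Agent.H94.PC (Mo Sq Pr pf om Mn mem_Mo mem_Sq mem_Pr mem_pf mem_pf')

variable {F : Type} [Field F] [Finite F] {ℓ : ℕ} [hl : Fact ℓ.Prime]
  {V : Type} [Fintype V] [DecidableEq V]

/-- restriction to a set of labels -/
def res {V : Type} {ℓ : ℕ} (C : CD V ℓ) (p : V → Prop) : CD {u // p u} ℓ where
  N := C.N
  Phi u w := C.Phi u.1 w.1

theorem res_good {V : Type} {ℓ : ℕ} {C : CD V ℓ} (hC : C.Good) (p : V → Prop) :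
    (res C p).Good := by
  have hU : ∀ U : Finset {u // p u}, (res C p).Unl U →
      C.Unl (U.map (Function.Embedding.subtype p)) := by
    intro U h u hu w hw
    rw [Finset.mem_map] at hu hw
    obtain ⟨u', hu', rfl⟩ := hu
    obtain ⟨w', hw', rfl⟩ := hw
    exact h u' hu' w' hw'
  refine ⟨hC.pos, fun u => hC.self u.1, fun U h => ?_, fun U h hc w hw => ?_⟩
  · have h1 := hC.card_le _ (hU U h)
    rwa [Finset.card_map] at h1
  · have h1 : (w : V) ∉ U.map (Function.Embedding.subtype p) := by
      intro h2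
      rw [Finset.mem_map] at h2
      obtain ⟨w', hw', h3⟩ := h2
      apply hw
      rwa [← (Subtype.ext h3 : w' = w)]
    obtain ⟨u, hu, u', hu', h4⟩ := hC.nonconst _ (hU U h) (by rw [Finset.card_map]; exact hc)
      (w : V) h1
    rw [Finset.mem_map] at hu hu'
    obtain ⟨v, hv, rfl⟩ := hu
    obtain ⟨v', hv', rfl⟩ := hu'
    exact ⟨v, hv, v', hv', h4⟩

/-- the sum over the pairs in order does not depend on the order -/
private theorem ord_indep {R I α β : Type} [CommRing R] [Fintype I] [LinearOrder α]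
    [LinearOrder β] (a : R) (ha : 2 * a = 0) (A : I → I → R) (hA : ∀ i j, A j i = -A i j)
    (f : I → α) (g : I → β) (hf : Function.Injective f) (hg : Function.Injective g) :
    a * ∑ i, ∑ j, (if g i < g j then A i j else 0) =
      a * ∑ i, ∑ j, (if f i < f j then A i j else 0) := by
  have e1 : ∀ i j : I, (if g i < g j then A i j else 0) =
      (if f i < f j then (if g i < g j then A i j else 0) else 0) +
      (if f j < f i then (if g i < g j then A i j else 0) else 0) := by
    intro i j
    rcases lt_trichotomy (f i) (f j) with h | h | h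
    · rw [if_pos h, if_neg (not_lt.2 h.le), add_zero]
    · have h2 : i = j := hf h
      subst h2
      simp
    · rw [if_pos h, if_neg (not_lt.2 h.le), zero_add]
  have e2 : ∑ i, ∑ j, (if g i < g j then A i j else 0) =
      ∑ i, ∑ j, (if f i < f j then ((if g i < g j then A i j else 0) +
        (if g j < g i then A j i else 0)) else 0) := by
    calc ∑ i, ∑ j, (if g i < g j then A i j else 0) =
        ∑ i, ∑ j, (if f i < f j then (if g i < g j then A i j else 0) else 0) +
        ∑ i, ∑ j, (if f j < f i then (if g i < g j then A i j else 0) else 0) := by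
          rw [← Finset.sum_add_distrib]
          refine Finset.sum_congr rfl fun i _ => ?_
          rw [← Finset.sum_add_distrib]
          exact Finset.sum_congr rfl fun j _ => e1 i j
      _ = ∑ i, ∑ j, (if f i < f j then (if g i < g j then A i j else 0) else 0) +
        ∑ i, ∑ j, (if f i < f j then (if g j < g i then A j i else 0) else 0) := by
          congr 1
          exact Finset.sum_comm
      _ = _ := by
          rw [← Finset.sum_add_distrib]
          refine Finset.sum_congr rfl fun i _ => ?_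
          rw [← Finset.sum_add_distrib]
          refine Finset.sum_congr rfl fun j _ => ?_
          by_cases h : f i < f j
          · rw [if_pos h, if_pos h, if_pos h]
          · rw [if_neg h, if_neg h, if_neg h, add_zero]
  rw [e2, Finset.mul_sum, Finset.mul_sum]
  refine Finset.sum_congr rfl fun i _ => ?_
  rw [Finset.mul_sum, Finset.mul_sum]
  refine Finset.sum_congr rfl fun j _ => ?_
  by_cases h : f i < f j
  · rw [if_pos h, if_pos h]
    rcases lt_trichotomy (g i) (g j) with h1 | h1 | h1
    · rw [if_pos h1, if_neg (not_lt.2 h1.le), add_zero]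
    · have h2 : i = j := hg h1
      subst h2
      exact absurd h (lt_irrefl _)
    · rw [if_pos h1, if_neg (not_lt.2 h1.le), zero_add, hA i j]
      linear_combination (-A i j) * ha
  · rw [if_neg h, if_neg h]

section

variable (p : V → Prop) [DecidablePred p]

omit [DecidableEq V] in
private theorem prod_res {M : Type*} [CommMonoid M] (f : V → M) (h : ∀ u, ¬ p u → f u = 1) :
    ∏ u, f u = ∏ w : {u // p u}, f w.1 := by
  rw [← Finset.prod_subtype (Finset.univ.filter p) (fun x => by simp) f]
  exact (Finset.prod_subset (Finset.filter_subset _ _) fun x _ hx =>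
    h x fun hp => hx (by simp [hp])).symm

/-- extension by a constant -/
private def ex {V α : Type} (p : V → Prop) [DecidablePred p] (c : α) (x : {u // p u} → α) : V → α :=
  fun v => if h : p v then x ⟨v, h⟩ else c

private theorem ex_in {V α : Type} (p : V → Prop) [DecidablePred p] (c : α)
    (x : {u // p u} → α) (w : {u // p u}) : ex p c x w.1 = x w := by
  unfold ex
  rw [dif_pos w.2]

private theorem ex_out {V α : Type} (p : V → Prop) [DecidablePred p] (c : α)
    (x : {u // p u} → α) {v : V} (h : ¬ p v) : ex p c x v = c := by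
  unfold ex
  rw [dif_neg h]

private theorem ty_one (χ : LChar F ℓ) (Δ : F[X]) : ty χ Δ 1 = 0 := by
  unfold ty
  refine Prod.ext ?_ ?_
  · show (((1 : F[X]).natDegree : ℕ) : ZMod ℓ) = 0
    rw [natDegree_one, Nat.cast_zero]
  · funext v
    exact lm_one_right χ v.1

omit [DecidableEq V] in
private theorem WG_res (χ : LChar F ℓ) (C : CD V ℓ) (Δ : F[X]) (G : (V → Tp ℓ (pf Δ)) → ℂ)
    (n : ℕ) (x : V → Mn F n) (hx : ∀ u, ¬ p u → (x u).1 = 1) :
    WG χ C Δ G n x = WG χ (res C p) Δ (fun τ => G (ex p 0 τ)) n (fun w => x w.1) := by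
  classical
  have e1 : ∏ u, (x u).1 = ∏ w : {u // p u}, (x w.1).1 :=
    prod_res p (fun u => (x u).1) hx
  have e2 : (fun u => ty χ Δ (x u).1) = ex p 0 (fun w : {u // p u} => ty χ Δ (x w.1).1) := by
    funext u
    by_cases h : p u
    · exact (ex_in p 0 (fun w : {u // p u} => ty χ Δ (x w.1).1) ⟨u, h⟩).symm
    · rw [ex_out p _ _ h, hx u h, ty_one]
  have e3 : ∏ u, ∏ w, ps (C.Phi u w * lm χ (x w).1 (x u).1) =
      ∏ u : {u // p u}, ∏ w : {u // p u}, ps ((res C p).Phi u w *
        lm χ (x w.1).1 (x u.1).1) := by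
    rw [prod_res p (fun u => ∏ w, ps (C.Phi u w * lm χ (x w).1 (x u).1)) fun u hu => ?_]
    · refine Finset.prod_congr rfl fun u _ => ?_
      exact prod_res p (fun w => ps (C.Phi u.1 w * lm χ (x w).1 (x u.1).1)) fun w hw => by
        rw [hx w hw, lm_one_left χ (x u.1).2.1, mul_zero, ps_zero]
    · refine Finset.prod_eq_one fun w _ => ?_
      rw [hx u hu, lm_one_right, mul_zero, ps_zero]
  unfold WG
  rw [e1, e2, e3]
  rfl

/-- the labels of the image -/
private def eU {V : Type} (p : V → Prop) (U : Finset {u // p u}) :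
    {w // w ∈ U} ≃ {u // u ∈ U.map (Function.Embedding.subtype p)} where
  toFun w := ⟨w.1.1, Finset.mem_map_of_mem (Function.Embedding.subtype p) w.2⟩
  invFun u := ⟨⟨u.1, by
      obtain ⟨v, hv, h⟩ := Finset.mem_map.1 u.2
      rw [← h]
      exact v.2⟩, by
      obtain ⟨v, hv, h⟩ := Finset.mem_map.1 u.2
      have h1 : v = ⟨u.1, by rw [← h]; exact v.2⟩ := Subtype.ext h
      rwa [← h1]⟩
  left_inv _ := rfl
  right_inv _ := rfl

omit [Finite F] in
private theorem two_lg (χ : LChar F ℓ) : 2 * χ.lg (-1) = 0 := by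
  have h := χ.mul (neg_ne_zero.2 (one_ne_zero (α := F))) (neg_ne_zero.2 one_ne_zero)
  rw [neg_one_mul, neg_neg, lg_one] at h
  rw [two_mul]
  exact h.symm

omit [Finite F] [DecidableEq V] in
private theorem rS_res (χ : LChar F ℓ) (C : CD V ℓ) (U : Finset {u // p u})
    (hU : (res C p).Unl U)
    (d : {u // u ∈ U.map (Function.Embedding.subtype p)} → ZMod ℓ) :
    χ.lg (-1) * rS C (U.map (Function.Embedding.subtype p)) d =
      χ.lg (-1) * rS (res C p) U (fun w => d (eU p U w)) := by
  have h1 : rS C (U.map (Function.Embedding.subtype p)) d =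
      ∑ i : {w // w ∈ U}, ∑ j : {w // w ∈ U},
        if Fintype.equivFin V i.1.1 < Fintype.equivFin V j.1.1 then
          (res C p).Phi i.1 j.1 * (d (eU p U i) * d (eU p U j)) else 0 := by
    unfold rS
    rw [← Equiv.sum_comp (eU p U)]
    refine Finset.sum_congr rfl fun i _ => ?_
    rw [← Equiv.sum_comp (eU p U)]
    rfl
  rw [h1]
  refine ord_indep (χ.lg (-1)) (two_lg χ)
    (fun i j : {w // w ∈ U} => (res C p).Phi i.1 j.1 * (d (eU p U i) * d (eU p U j)))
    (fun i j => ?_) (fun i : {w // w ∈ U} => Fintype.equivFin {u // p u} i.1)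
    (fun i : {w // w ∈ U} => Fintype.equivFin V i.1.1) (fun i j h => ?_) (fun i j h => ?_)
  · have h2 : (res C p).Phi i.1 j.1 + (res C p).Phi j.1 i.1 = 0 := hU i.1 i.2 j.1 j.2
    linear_combination (d (eU p U i) * d (eU p U j)) * h2
  · exact Subtype.ext ((Fintype.equivFin {u // p u}).injective h)
  · exact Subtype.ext (Subtype.ext ((Fintype.equivFin V).injective h))

private theorem AU_res (χ : LChar F ℓ) (C : CD V ℓ) (Δ : F[X]) (G : (V → Tp ℓ (pf Δ)) → ℂ)
    (U : Finset {u // p u}) (hU : (res C p).Unl U) (t : Tp ℓ (pf Δ)) :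
    AU χ (res C p) Δ (fun τ => G (ex p 0 τ)) U t =
      AU χ C Δ G (U.map (Function.Embedding.subtype p)) t := by
  classical
  unfold AU
  rw [Finset.card_map]
  congr 1
  rw [← Equiv.sum_comp (Equiv.arrowCongr (eU p U) (Equiv.refl (Tp ℓ (pf Δ))))]
  refine Finset.sum_congr rfl fun τ _ => ?_
  have e1 : ∑ u, (Equiv.arrowCongr (eU p U) (Equiv.refl (Tp ℓ (pf Δ)))) τ u = ∑ u, τ u := by
    rw [← Equiv.sum_comp (eU p U)]
    refine Finset.sum_congr rfl fun u _ => ?_
    show τ ((eU p U).symm (eU p U u)) = τ u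
    rw [Equiv.symm_apply_apply]
  have e2 : ex p 0 (mgU U τ fun _ => 0) = mgU (U.map (Function.Embedding.subtype p))
      ((Equiv.arrowCongr (eU p U) (Equiv.refl (Tp ℓ (pf Δ)))) τ) fun _ => 0 := by
    funext v
    by_cases h : p v
    · by_cases h2 : (⟨v, h⟩ : {u // p u}) ∈ U
      · have h3 : v ∈ U.map (Function.Embedding.subtype p) :=
          Finset.mem_map_of_mem (Function.Embedding.subtype p) h2
        have h4 := mgU_in (U.map (Function.Embedding.subtype p))
          ((Equiv.arrowCongr (eU p U) (Equiv.refl (Tp ℓ (pf Δ)))) τ) (fun _ => 0) ⟨v, h3⟩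
        have h5 := mgU_in U τ (fun _ => 0) ⟨⟨v, h⟩, h2⟩
        have h6 := ex_in p 0 (mgU U τ fun _ => 0) ⟨v, h⟩
        simp only at h4 h5 h6
        rw [h4, h6, h5]
        rfl
      · have h3 : v ∉ U.map (Function.Embedding.subtype p) := by
          intro h3
          obtain ⟨v', hv', h4⟩ := Finset.mem_map.1 h3
          apply h2
          rwa [← (Subtype.ext h4 : v' = ⟨v, h⟩)]
        have h4 := mgU_out (U.map (Function.Embedding.subtype p))
          ((Equiv.arrowCongr (eU p U) (Equiv.refl (Tp ℓ (pf Δ)))) τ) (fun _ => 0) ⟨v, h3⟩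
        have h5 := mgU_out U τ (fun _ => 0) ⟨⟨v, h⟩, h2⟩
        have h6 := ex_in p 0 (mgU U τ fun _ => 0) ⟨v, h⟩
        simp only at h4 h5 h6
        rw [h4, h6, h5]
    · have h3 : v ∉ U.map (Function.Embedding.subtype p) := by
        intro h3
        obtain ⟨v', hv', h4⟩ := Finset.mem_map.1 h3
        apply h
        rw [← h4]
        exact v'.2
      have h4 := mgU_out (U.map (Function.Embedding.subtype p))
        ((Equiv.arrowCongr (eU p U) (Equiv.refl (Tp ℓ (pf Δ)))) τ) (fun _ => 0) ⟨v, h3⟩
      simp only at h4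
      rw [h4, ex_out p _ _ h]
  have e3 := rS_res p χ C U hU
    (fun u => ((Equiv.arrowCongr (eU p U) (Equiv.refl (Tp ℓ (pf Δ)))) τ u).1)
  have e4 : (fun w => ((Equiv.arrowCongr (eU p U) (Equiv.refl (Tp ℓ (pf Δ)))) τ
      (eU p U w)).1) = fun w => (τ w).1 := by
    funext w
    show (τ ((eU p U).symm (eU p U w))).1 = (τ w).1
    rw [Equiv.symm_apply_apply]
  rw [e4] at e3
  rw [e1, e3]
  beta_reduce
  rw [e2]

end

open Classical in
theorem angr (χ : LChar F ℓ) (C : CD V ℓ) (hC : C.Good) (p : V → Prop) (Δ : F[X]) (hΔ : Δ ≠ 0)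
    (ε : ℝ) (hε : 0 < ε) : ∃ n₀ : ℕ, ∀ n : ℕ, n₀ ≤ n →
      ∀ G : (V → Tp ℓ (pf Δ)) → ℂ, (∀ τ, ‖G τ‖ ≤ 1) →
      ‖∑ x ∈ Finset.univ.filter (fun x : V → Mn F n => ∀ u, ¬ p u → (x u).1 = 1), WG χ C Δ G n x -
        ∑ U ∈ (MaxU C).filter (fun U => ∀ u ∈ U, p u), ∑ D ∈ Cls Δ n,
          AU χ C Δ G U (ty χ Δ D)‖ ≤ ε * (Nat.card F : ℝ) ^ n := by
  obtain ⟨n₀, h⟩ := ang χ (res C p) (res_good hC p) Δ hΔ ε hε
  refine ⟨n₀, fun n hn G hG => ?_⟩
  have h1 := h n hn (fun τ => G (ex p 0 τ)) fun τ => hG _
  have e1 : ∑ x ∈ Finset.univ.filter (fun x : V → Mn F n => ∀ u, ¬ p u → (x u).1 = 1),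
      WG χ C Δ G n x = ∑ x : {u // p u} → Mn F n,
        WG χ (res C p) Δ (fun τ => G (ex p 0 τ)) n x := by
    refine Finset.sum_nbij' (fun x w => x w.1) (fun x => ex p (Mn.one n) x) ?_ ?_ ?_ ?_ ?_
    · intro x _
      exact Finset.mem_univ _
    · intro x _
      rw [Finset.mem_filter]
      refine ⟨Finset.mem_univ _, fun u hu => ?_⟩
      rw [ex_out p _ _ hu]
      rfl
    · intro x hx
      rw [Finset.mem_filter] at hx
      funext u
      by_cases hu : p u
      · exact ex_in p (Mn.one n) (fun w : {u // p u} => x w.1) ⟨u, hu⟩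
      · rw [ex_out p _ _ hu]
        exact Subtype.ext (hx.2 u hu).symm
    · intro x _
      funext w
      exact ex_in p (Mn.one n) x w
    · intro x hx
      rw [Finset.mem_filter] at hx
      exact WG_res p χ C Δ G n x hx.2
  have e2 : ∑ U ∈ (MaxU C).filter (fun U => ∀ u ∈ U, p u), ∑ D ∈ Cls Δ n,
      AU χ C Δ G U (ty χ Δ D) = ∑ U ∈ MaxU (res C p), ∑ D ∈ Cls Δ n,
      AU χ (res C p) Δ (fun τ => G (ex p 0 τ)) U (ty χ Δ D) := by
    symm
    refine Finset.sum_nbij' (fun U => U.map (Function.Embedding.subtype p))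
      (fun U => U.subtype p) ?_ ?_ ?_ ?_ ?_
    · intro U hU
      rw [mem_MaxU] at hU
      rw [Finset.mem_filter, mem_MaxU, Finset.card_map]
      refine ⟨⟨fun u hu w hw => ?_, hU.2⟩, fun u hu => ?_⟩
      · rw [Finset.mem_map] at hu hw
        obtain ⟨u', hu', rfl⟩ := hu
        obtain ⟨w', hw', rfl⟩ := hw
        exact hU.1 u' hu' w' hw'
      · rw [Finset.mem_map] at hu
        obtain ⟨u', hu', rfl⟩ := hu
        exact u'.2
    · intro U hU
      rw [Finset.mem_filter, mem_MaxU] at hU
      rw [mem_MaxU]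
      refine ⟨fun u hu w hw => ?_, ?_⟩
      · rw [Finset.mem_subtype] at hu hw
        exact hU.1.1 _ hu _ hw
      · rw [← Finset.card_map (Function.Embedding.subtype p),
          Finset.subtype_map_of_mem hU.2]
        exact hU.1.2
    · intro U _
      ext u
      rw [Finset.mem_subtype, Finset.mem_map]
      constructor
      · rintro ⟨v, hv, h2⟩
        rwa [← (Subtype.ext h2 : v = u)]
      · intro hu
        exact ⟨u, hu, rfl⟩
    · intro U hU
      rw [Finset.mem_filter] at hU
      exact Finset.subtype_map_of_mem hU.2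
    · intro U hU
      rw [mem_MaxU] at hU
      refine Finset.sum_congr rfl fun D _ => ?_
      exact AU_res p χ C Δ G U hU.1 (ty χ Δ D)
  rw [e1, e2]
  exact h1

end Pool.Agent.H94.FS
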